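import Pool.Agent.U207.SM.Defs
import Pool.Agent.U207.QK.Cur
import Pool.Agent.U207.QC.TrD

/-!
Project SM (helper207), part G: a hyperbolic smooth complete intersection of quadrics `V → P^N`.
-/

set_option autoImplicit false

namespace Pool.Agent.U207.SM

open MvPolynomial
open Pool.Agent.U207.QK
open Pool.Agent.N254.SQ (Mon ver ver_prop ver_smul ver_ne_zero ver_diff t_num)
open Pool.Agent.U207.QC (hI cN pf)

section hyp

variable {n N d c : ℕ} {m : Fin (N + 1) → Fin (n + 1) → ℕ} {K : Type} [Field K]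

theorem eval₂_alg {τ : Type} (σ : K →+* ℂ) (x : τ → ℂ) (p : MvPolynomial τ K) :
    eval₂ σ x p = eval x (map σ p) := by rw [eval_map]

theorem goodσ [CharZero K] {ι : Type} {F : ι → MvPolynomial (Fin (n + 1)) K}
    {P ℓ : Fin c → MvPolynomial (Fin (N + 1)) K} (h : Cv n N d c m F P ℓ) (σ : K →+* ℂ) :
    Cv n N d c m (fun i => map σ (F i)) (fun i => map σ (P i)) (fun i => map σ (ℓ i)) := by
  let _ : Algebra K ℂ := σ.toAlgebra
  exact h.map ℂ

theorem cover_map (σ : K →+* ℂ) (P : Fin c → MvPolynomial (Fin (N + 1)) K) (i : Fin c) :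
    map σ (coverForm P i) = Pool.Agent.U207.QC.coverForm (fun i => map σ (P i)) i :=
  map_cover σ P i

/-- if `X_σ` is hyperbolic, then so is `Y_σ` -/
theorem hyp_cover [CharZero K] {ι : Type} {F : ι → MvPolynomial (Fin (n + 1)) K}
    {P ℓ : Fin c → MvPolynomial (Fin (N + 1)) K} (h : Cv n N d c m F P ℓ) (σ : K →+* ℂ)
    (hX : Hyperbolic σ F) : Hyperbolic σ (coverForm P) := by
  have hd1 : 1 ≤ d := le_trans (by norm_num) h.hd
  have hσ := goodσ h σ
  intro f hf hf0 hfP
  have hor : (∀ z w, ∃ s : ℂ, f z = s • f w) ∨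
      ∀ z, ∃ x : Fin (n + 1) → ℂ, x ≠ 0 ∧ (∀ i, eval₂ σ x (F i) = 0) ∧
        f z ∘ hI N c = Pool.Agent.N254.SQ.veronese m x := by
    obtain ⟨-, hg⟩ := hσ.goodC
    rcases hg.curves f hf hf0 (fun z i => by
        rw [← cover_map, ← eval₂_alg]
        exact hfP z i) with h1 | h1
    · exact Or.inl fun z w => h1 w z
    · right
      intro z
      obtain ⟨x, hx, hxF, hxv⟩ := h1 z
      exact ⟨x, hx, fun i => by rw [eval₂_alg]; exact hxF _ ⟨i, rfl⟩, hxv⟩
  rcases hor with h1 | h1
  · exact h1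
  have hfP' : ∀ z i, eval (f z) (coverForm (fun i => map σ (P i)) i) = 0 := fun z i => by
    rw [← map_cover, ← eval₂_alg]
    exact hfP z i
  obtain ⟨g, hg, hg0, hgF, hgf⟩ := lift_curve h.mon hd1 (F := fun i => map σ (F i))
    (fun i => by
      obtain ⟨e, -, he⟩ := hσ.hF i
      exact ⟨e, he⟩) (G := fun z => f z ∘ hI N c)
    (by
      rw [differentiable_pi] at hf ⊢
      exact fun j => hf _)
    (fun z => base_ne (P := fun i => map σ (P i)) hσ.homP (hf0 z) fun i => hfP' z i)
    (fun z => by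
      obtain ⟨x, hx, hxF, hxv⟩ := h1 z
      exact ⟨x, hx, fun i => by
        rw [← eval₂_alg]
        exact hxF i, hxv⟩)
  have h2 := hX g hg hg0 fun z i => by
    rw [eval₂_alg]
    exact hgF z i
  have h3 := curve_const hσ.homP hf hf0 hfP' fun z w => by
    obtain ⟨s, hs⟩ := h2 w z
    refine ⟨s ^ d, ?_⟩
    rw [hgf w, hgf z, hs, ver_smul h.mon]
  exact fun z w => h3 w z

end hyp

/-- **The base.** -/
theorem exists_base (K : Type) [Field K] [CharZero K] (N₀ : ℕ) :
    ∃ (N c : ℕ) (P : Fin c → MvPolynomial (Fin (N + 1)) K), N₀ ≤ N ∧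
      (∀ l, (P l).IsHomogeneous 2) ∧ SmoothCover P ∧ (∀ l, eval (Pi.single 0 1) (P l) = 1) ∧
      ∀ σ : K →+* ℂ, Hyperbolic σ (coverForm P) := by
  classical
  obtain ⟨N, m', hm', hN⟩ := t_num (N₀ + 1) 3 (by omega) le_rfl
  -- the monomial `x_0 ^ 3`
  obtain ⟨k1, hk1⟩ := hm'.surj (Pi.single 0 3) (by simp)
  set m : Fin (N + 1) → Fin (N₀ + 1 + 1) → ℕ := fun k => m' (Equiv.swap 0 k1 k) with hmd
  have hm0 : m 0 = Pi.single 0 3 := by
    rw [hmd]
    simp only [Equiv.swap_apply_left]
    exact hk1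
  have hm : Mon (N₀ + 1) N 3 m := by
    refine ⟨fun k => hm'.deg _, fun k k' hkk => ?_, fun e he => ?_⟩
    · exact (Equiv.swap 0 k1).injective (hm'.inj hkk)
    · obtain ⟨k, hk⟩ := hm'.surj e he
      exact ⟨Equiv.swap 0 k1 k, by rw [hmd]; simp only [Equiv.swap_apply_self]; exact hk⟩
  let F : Fin (N₀ + 1) → MvPolynomial (Fin (N₀ + 1 + 1)) K := fun j => X j.succ
  obtain ⟨P, ℓ, h⟩ := exists_cvK (K := K) (F := F) (by omega) le_rfl hm hN
    (fun j => ⟨1, by norm_num, isHomogeneous_X K _⟩) (cN N) le_rfl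
  refine ⟨N, cN N, P, by omega, h.homP, h.smooth, fun l => ?_, fun σ => hyp_cover h σ ?_⟩
  · -- the point
    obtain ⟨s, B, k, M, Z, a, ha, hZ, -, hB, -, -, -, hP, hsub, -⟩ := h.ex
    have he : ver m (Pi.single 0 1 : Fin (N₀ + 1 + 1) → K) = Pi.single 0 1 := by
      funext k
      unfold ver
      by_cases hk : k = 0
      · subst hk
        rw [hm0, Pi.single_eq_same]
        refine Finset.prod_eq_one fun j _ => ?_
        by_cases hj : j = 0
        · subst hj
          simp
        · simp [hj]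
      · rw [Pi.single_eq_of_ne hk]
        obtain ⟨j, hj, hmj⟩ : ∃ j, j ≠ 0 ∧ m k j ≠ 0 := by
          by_contra hcon
          push Not at hcon
          apply hk
          apply hm.inj
          rw [hm0]
          funext j
          by_cases hj : j = 0
          · subst hj
            have h1 := hm.deg k
            rw [Finset.sum_eq_single 0 (fun j _ hj => hcon j hj) (by simp)] at h1
            rw [h1, Pi.single_eq_same]
          · rw [hcon j hj, Pi.single_eq_of_ne hj]
        refine Finset.prod_eq_zero (Finset.mem_univ j) ?_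
        rw [Pi.single_eq_of_ne hj, zero_pow hmj]
    have h1 : ∀ t, aeval (ver m (Pi.single 0 1 : Fin (N₀ + 1 + 1) → K)) (Z t) = 0 := by
      refine hsub K _ fun j => ?_
      simp [F]
    rw [he] at h1
    have h2 : eval (Pi.single 0 1 : Fin (N + 1) → K) (P l) =
        aeval (Pi.single 0 1 : Fin (N + 1) → K) (P l) := by
      rw [← MvPolynomial.coe_aeval_eq_eval]
      rfl
    rw [h2, hP l]
    unfold pf
    rw [map_add, map_pow, map_sum, map_sum]
    rw [Finset.sum_eq_zero (f := fun t : Fin s => aeval (Pi.single 0 1 : Fin (N + 1) → K)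
      (C (a l ^ (B + k * (t : ℕ))) * Z t)) (fun t _ => by rw [map_mul, h1, mul_zero]), add_zero]
    simp only [map_mul, aeval_C, aeval_X]
    rw [Finset.sum_eq_single 0]
    · simp
    · intro j _ hj
      rw [Pi.single_eq_of_ne hj, mul_zero]
    · intro h
      exact absurd (Finset.mem_univ _) h
  · intro f _ hf0 hfF z w
    have h0 : ∀ z (j : Fin (N₀ + 1)), f z j.succ = 0 := fun z j => by
      have := hfF z j
      simpa [F] using this
    have hw : f w 0 ≠ 0 := by
      intro h1
      apply hf0 w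
      funext j
      refine Fin.cases h1 (fun j => h0 w j) j
    refine ⟨f z 0 / f w 0, funext fun j => ?_⟩
    rw [Pi.smul_apply, smul_eq_mul]
    refine Fin.cases ?_ (fun j => ?_) j
    · rw [div_mul_cancel₀ _ hw]
    · rw [h0, h0, mul_zero]

end Pool.Agent.U207.SM
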