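import Mathlib
import Pool.Agent.U207.QK.Defs

/-!
Project SM (helper207): definitions. Closed subsets of `P^n` and of `P^n × P^m` over a field `K`, their
points, hyperbolicity, smoothness.
-/

set_option autoImplicit false

namespace Pool.Agent.U207.SM

open MvPolynomial
open scoped LinearAlgebra.Projectivization
open Pool.Agent.U207.QC (hI)
open Pool.Agent.U207.QK (coverForm SmoothCover)

section defs

variable {K : Type} [Field K] {ι : Type} {n m : ℕ}

/-- `X(L)` for the closed subset `X` of `P^n` over `K` given by the forms `F i`, and an extension field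
`L` of `K` -/
def points (L : Type) [Field L] [Algebra K L] (F : ι → MvPolynomial (Fin (n + 1)) K) :
    Set (ℙ L (Fin (n + 1) → L)) := {Q | ∀ i, aeval Q.rep (F i) = 0}

/-- `X_σ` is hyperbolic (in Brody's form, which is equivalent to Kobayashi's for closed subsets of
projective spaces): every holomorphic map from the complex plane to `X_σ`, given by entire functions
without common zeros, is constant. -/
def Hyperbolic (σ : K →+* ℂ) (F : ι → MvPolynomial (Fin (n + 1)) K) : Prop :=
  ∀ f : ℂ → Fin (n + 1) → ℂ, Differentiable ℂ f → (∀ z, f z ≠ 0) →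
    (∀ z i, eval₂ σ (f z) (F i) = 0) → ∀ z w, ∃ c : ℂ, f z = c • f w

/-- `X(L)` is finite for all finite extensions `L` of `K` -/
def AllFinite (F : ι → MvPolynomial (Fin (n + 1)) K) : Prop :=
  ∀ (L : Type) [Field L] [Algebra K L] [FiniteDimensional K L], (points L F).Finite

/-- `Y(L)` for the closed subset `Y` of `P^n × P^m` over `K` given by the polynomials `E i` in
`x_0, …, x_n` and `y_0, …, y_m` -/
def points₂ (L : Type) [Field L] [Algebra K L]
    (E : ι → MvPolynomial (Fin (n + 1) ⊕ Fin (m + 1)) K) :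
    Set (ℙ L (Fin (n + 1) → L) × ℙ L (Fin (m + 1) → L)) :=
  {Q | ∀ i, aeval (Sum.elim Q.1.rep Q.2.rep) (E i) = 0}

/-- `Y_σ` is hyperbolic: every holomorphic map from the complex plane to `Y_σ ⊆ P^n × P^m` is
constant. -/
def Hyperbolic₂ (σ : K →+* ℂ) (E : ι → MvPolynomial (Fin (n + 1) ⊕ Fin (m + 1)) K) : Prop :=
  ∀ (f : ℂ → Fin (n + 1) → ℂ) (g : ℂ → Fin (m + 1) → ℂ), Differentiable ℂ f → Differentiable ℂ g →
    (∀ z, f z ≠ 0) → (∀ z, g z ≠ 0) → (∀ z i, eval₂ σ (Sum.elim (f z) (g z)) (E i) = 0) →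
      ∀ z w, (∃ c : ℂ, f z = c • f w) ∧ ∃ c : ℂ, g z = c • g w

/-- `Y(L)` is finite for all finite extensions `L` of `K` -/
def AllFinite₂ (E : ι → MvPolynomial (Fin (n + 1) ⊕ Fin (m + 1)) K) : Prop :=
  ∀ (L : Type) [Field L] [Algebra K L] [FiniteDimensional K L], (points₂ L E).Finite

/-- `Y ⊆ P^n × P^m` is a smooth complete intersection: at all points of `Y` over extension fields of
`K` the gradients of the equations are linearly independent. -/
def Smooth₂ (E : ι → MvPolynomial (Fin (n + 1) ⊕ Fin (m + 1)) K) : Prop :=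
  ∀ (Ω : Type) [Field Ω] [Algebra K Ω] (x : Fin (n + 1) → Ω) (y : Fin (m + 1) → Ω),
    x ≠ 0 → y ≠ 0 → (∀ i, aeval (Sum.elim x y) (E i) = 0) →
      LinearIndependent Ω fun (i : ι) (j : Fin (n + 1) ⊕ Fin (m + 1)) =>
        aeval (Sum.elim x y) (pderiv j (E i))

/-- the equations `∑_k w_k A_{ik}(h) = 0` and `x_l ^ 2 = P_l(w)` in `P^n × P^{N+c}` with the coordinates
`h_j` and `w_k`, `x_l` -/
noncomputable def modelEqs {N c s : ℕ} (A : Fin s → Fin (N + 1) → MvPolynomial (Fin (n + 1)) K)
    (P : Fin c → MvPolynomial (Fin (N + 1)) K) :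
    Fin s ⊕ Fin c → MvPolynomial (Fin (n + 1) ⊕ Fin (N + c + 1)) K :=
  Sum.elim (fun i => ∑ k, X (Sum.inr (hI N c k)) * rename Sum.inl (A i k))
    (fun l => rename Sum.inr (coverForm P l))

/-- The smooth models: `V = {x_l ^ 2 = P_l(w), l < c}` in `P^{N+c}` is a smooth complete intersection of
quadrics, which is hyperbolic (for all complex embeddings of `K`) and contains the point
`w = (1, 0, …, 0)`, `x = (1, …, 1)`; `Y = {∑_k w_k A_{ik}(h) = 0, i < s}` in `P^n × V` is a smooth complete
intersection, with forms `A_{ik}` of the same degree, and the fibres of `Y → V` over all points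
(over all extension fields of `K`) with `w ≠ (1, 0, …, 0)` are finite. -/
structure Model {N c s : ℕ} (A : Fin s → Fin (N + 1) → MvPolynomial (Fin (n + 1)) K)
    (P : Fin c → MvPolynomial (Fin (N + 1)) K) : Prop where
  deg : ∃ d, ∀ i k, (A i k).IsHomogeneous d
  deg_two : ∀ l, (P l).IsHomogeneous 2
  base : SmoothCover P
  base_hyp : ∀ σ : K →+* ℂ, Hyperbolic σ (coverForm P)
  base_pt : ∀ l, eval (Pi.single 0 1) (P l) = 1
  smooth : Smooth₂ (modelEqs A P)
  fib : ∀ (L : Type) [Field L] [Algebra K L] (y : Fin (N + c + 1) → L),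
    (∀ l, aeval y (coverForm P l) = 0) → (∃ k ≠ 0, y (hI N c k) ≠ 0) →
      {Q : ℙ L (Fin (n + 1) → L) |
        ∀ i, ∑ k, y (hI N c k) * aeval Q.rep (A i k) = 0}.Finite

end defs

end Pool.Agent.U207.SM
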