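import Pool.Agent.U207.QK.Cur
import Pool.Agent.H135R2.VS.Der
import Pool.Agent.N254.SQ.Spec

/-!
Project SM (helper207), part A: families of forms `F_i(h, w) = w_{k0} g_i(h) + Σ_k w_k A_{ik}(h)` with
general forms `A_{ik}`, `k ≠ k0`: smoothness for algebraically independent coefficients.
-/

set_option autoImplicit false

namespace Pool.Agent.U207.SM

open MvPolynomial

/-- words in the variables -/
abbrev Wd (n d : ℕ) := Fin d → Fin (n + 1)

/-- the coefficients of the forms `A_{ik}` -/
abbrev Par (n N s d : ℕ) := Fin s × Fin (N + 1) × Wd n d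

section ring

variable {K : Type} [Field K] {n N s d c : ℕ}

/-- the monomial of a word -/
noncomputable def mo (K : Type) [Field K] {n d : ℕ} (α : Wd n d) : MvPolynomial (Fin (n + 1)) K :=
  ∏ t, X (α t)

theorem mo_hom (α : Wd n d) : (mo K α).IsHomogeneous d := by
  have h := IsHomogeneous.prod (R := K) Finset.univ (fun t => (X (α t) : MvPolynomial _ K))
    (fun _ => 1) (fun t _ => isHomogeneous_X K (α t))
  simpa [mo] using h

theorem mo_aeval {R : Type} [CommRing R] [Algebra K R] (h : Fin (n + 1) → R) (α : Wd n d) :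
    aeval h (mo K α) = ∏ t, h (α t) := by
  unfold mo
  rw [map_prod]
  simp only [aeval_X]


variable {R : Type} [CommRing R] [Algebra K R]

/-- the values of the forms `A_{ik}` and their derivatives -/
noncomputable def av (g : Fin s → MvPolynomial (Fin (n + 1)) K) (k0 : Fin (N + 1))
    (a : Par n N s d → R) (h : Fin (n + 1) → R) (i : Fin s) (k : Fin (N + 1)) : R :=
  if k = k0 then aeval h (g i) else ∑ α, a (i, k, α) * aeval h (mo K α)

noncomputable def avd (g : Fin s → MvPolynomial (Fin (n + 1)) K) (k0 : Fin (N + 1))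
    (a : Par n N s d → R) (h : Fin (n + 1) → R) (i : Fin s) (k : Fin (N + 1))
    (j : Fin (n + 1)) : R :=
  if k = k0 then aeval h (pderiv j (g i)) else ∑ α, a (i, k, α) * aeval h (pderiv j (mo K α))

/-- the values of the forms `F_i` -/
noncomputable def fv (g : Fin s → MvPolynomial (Fin (n + 1)) K) (k0 : Fin (N + 1))
    (a : Par n N s d → R) (h : Fin (n + 1) → R) (w : Fin (N + 1) → R) (i : Fin s) : R :=
  ∑ k, w k * av g k0 a h i k

variable {R' : Type} [CommRing R'] [Algebra K R']

theorem aeval_map' (φ : R →ₐ[K] R') (h : Fin (n + 1) → R) (p : MvPolynomial (Fin (n + 1)) K) :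
    φ (aeval h p) = aeval (fun j => φ (h j)) p := MvPolynomial.comp_aeval_apply h φ p

theorem av_map (φ : R →ₐ[K] R') (g : Fin s → MvPolynomial (Fin (n + 1)) K) (k0 : Fin (N + 1))
    (a : Par n N s d → R) (h : Fin (n + 1) → R) (i : Fin s) (k : Fin (N + 1)) :
    φ (av g k0 a h i k) = av g k0 (fun p => φ (a p)) (fun j => φ (h j)) i k := by
  unfold av
  split_ifs
  · exact aeval_map' φ h _
  · rw [map_sum]
    refine Finset.sum_congr rfl fun α _ => ?_
    rw [map_mul, aeval_map']

theorem avd_map (φ : R →ₐ[K] R') (g : Fin s → MvPolynomial (Fin (n + 1)) K) (k0 : Fin (N + 1))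
    (a : Par n N s d → R) (h : Fin (n + 1) → R) (i : Fin s) (k : Fin (N + 1)) (j : Fin (n + 1)) :
    φ (avd g k0 a h i k j) = avd g k0 (fun p => φ (a p)) (fun j => φ (h j)) i k j := by
  unfold avd
  split_ifs
  · exact aeval_map' φ h _
  · rw [map_sum]
    refine Finset.sum_congr rfl fun α _ => ?_
    rw [map_mul, aeval_map']

theorem fv_map (φ : R →ₐ[K] R') (g : Fin s → MvPolynomial (Fin (n + 1)) K) (k0 : Fin (N + 1))
    (a : Par n N s d → R) (h : Fin (n + 1) → R) (w : Fin (N + 1) → R) (i : Fin s) :
    φ (fv g k0 a h w i) = fv g k0 (fun p => φ (a p)) (fun j => φ (h j)) (fun k => φ (w k)) i := by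
  unfold fv
  rw [map_sum]
  refine Finset.sum_congr rfl fun k _ => ?_
  rw [map_mul, av_map]

/-- the chain rule -/
theorem chain (D : Derivation K R R) (h : Fin (n + 1) → R) (p : MvPolynomial (Fin (n + 1)) K) :
    D (aeval h p) = ∑ j, aeval h (pderiv j p) * D (h j) := by
  classical
  induction p using MvPolynomial.induction_on with
  | C a => simp
  | add p q hp hq =>
    simp only [map_add, add_mul, Finset.sum_add_distrib, hp, hq]
  | mul_X p i hp =>
    rw [map_mul, aeval_X, Derivation.leibniz, hp, smul_eq_mul, smul_eq_mul]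
    have h1 : ∀ j, aeval h (pderiv j (p * X i)) * D (h j) =
        h i * (aeval h (pderiv j p) * D (h j)) +
          (if i = j then aeval h p * D (h j) else 0) := by
      intro j
      rw [Derivation.leibniz, pderiv_X, Pi.single_apply]
      by_cases hij : i = j
      · subst hij
        simp only [smul_eq_mul, if_true, map_add, map_mul, aeval_X, map_one]
        ring
      · rw [if_neg hij, if_neg hij]
        simp only [smul_eq_mul, mul_zero, zero_add, map_mul, aeval_X]
        ring
    rw [Finset.sum_congr rfl fun j _ => h1 j, Finset.sum_add_distrib, Finset.sum_ite_eq,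
      if_pos (Finset.mem_univ _), ← Finset.mul_sum]
    ring

/-- the part of the derivative of `A_{ik}(h)` which comes from the coefficients -/
noncomputable def ad (D : Derivation K R R) (k0 : Fin (N + 1)) (a : Par n N s d → R)
    (h : Fin (n + 1) → R) (i : Fin s) (k : Fin (N + 1)) : R :=
  if k = k0 then 0 else ∑ α, D (a (i, k, α)) * aeval h (mo K α)

theorem der_av (D : Derivation K R R) (g : Fin s → MvPolynomial (Fin (n + 1)) K)
    (k0 : Fin (N + 1)) (a : Par n N s d → R) (h : Fin (n + 1) → R) (i : Fin s)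
    (k : Fin (N + 1)) :
    D (av g k0 a h i k) = ∑ j, avd g k0 a h i k j * D (h j) + ad D k0 a h i k := by
  unfold av avd ad
  split_ifs with hk
  · rw [chain, add_zero]
  · rw [map_sum]
    simp only [Derivation.leibniz, smul_eq_mul, chain, Finset.sum_add_distrib, Finset.sum_mul]
    congr 1
    · rw [Finset.sum_comm]
      refine Finset.sum_congr rfl fun α _ => ?_
      rw [Finset.mul_sum]
      refine Finset.sum_congr rfl fun j _ => ?_
      ring
    · refine Finset.sum_congr rfl fun α _ => ?_
      ring

theorem der_fv (D : Derivation K R R) (g : Fin s → MvPolynomial (Fin (n + 1)) K)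
    (k0 : Fin (N + 1)) (a : Par n N s d → R) (h : Fin (n + 1) → R) (w : Fin (N + 1) → R)
    (i : Fin s) :
    D (fv g k0 a h w i) = ∑ k, D (w k) * av g k0 a h i k +
      ∑ j, (∑ k, w k * avd g k0 a h i k j) * D (h j) + ∑ k, w k * ad D k0 a h i k := by
  unfold fv
  rw [map_sum]
  simp only [Derivation.leibniz, smul_eq_mul, der_av, mul_add, Finset.sum_add_distrib]
  have h1 : ∑ k, w k * ∑ j, avd g k0 a h i k j * D (h j) =
      ∑ j, (∑ k, w k * avd g k0 a h i k j) * D (h j) := by
    simp only [Finset.mul_sum, Finset.sum_mul]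
    rw [Finset.sum_comm]
    refine Finset.sum_congr rfl fun j _ => Finset.sum_congr rfl fun k _ => ?_
    ring
  have h2 : ∑ k, av g k0 a h i k * D (w k) = ∑ k, D (w k) * av g k0 a h i k :=
    Finset.sum_congr rfl fun k _ => mul_comm _ _
  rw [h1, h2]
  ring

end ring

end Pool.Agent.U207.SM
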