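import Mathlib

/-!
Project SM (helper207), part D: the Taylor homomorphism of a derivation.
-/

set_option autoImplicit false

namespace Pool.Agent.U207.SM

variable {L Ω : Type} [Field L] [Field Ω] [CharZero Ω] [Algebra L Ω]

/-- the Taylor series of `u` -/
noncomputable def tay (D : Derivation L Ω Ω) (u : Ω) : PowerSeries Ω :=
  PowerSeries.mk fun r => (D^[r]) u * ((r.factorial : ℕ) : Ω)⁻¹

omit [CharZero Ω] in
theorem tay_zero (D : Derivation L Ω Ω) (u : Ω) : PowerSeries.coeff 0 (tay D u) = u := by
  simp [tay]

omit [CharZero Ω] in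
theorem tay_one' (D : Derivation L Ω Ω) (u : Ω) : PowerSeries.coeff 1 (tay D u) = D u := by
  simp [tay]

omit [CharZero Ω] in
theorem iter_add (D : Derivation L Ω Ω) (r : ℕ) (u v : Ω) :
    (D^[r]) (u + v) = (D^[r]) u + (D^[r]) v := by
  induction r generalizing u v with
  | zero => rfl
  | succ r ih => rw [Function.iterate_succ_apply, Function.iterate_succ_apply,
      Function.iterate_succ_apply, map_add, ih]

omit [CharZero Ω] in
theorem tay_add (D : Derivation L Ω Ω) (u v : Ω) : tay D (u + v) = tay D u + tay D v := by
  ext r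
  simp [tay, add_mul]

theorem tay_der (D : Derivation L Ω Ω) (u : Ω) :
    PowerSeries.derivative Ω (tay D u) = tay D (D u) := by
  ext r
  rw [PowerSeries.coeff_derivative, tay, tay, PowerSeries.coeff_mk, PowerSeries.coeff_mk,
    Function.iterate_succ_apply, Nat.factorial_succ]
  have h1 : ((r.factorial : ℕ) : Ω) ≠ 0 := Nat.cast_ne_zero.2 (Nat.factorial_ne_zero r)
  have h2 : ((r : Ω) + 1) ≠ 0 := by exact_mod_cast Nat.succ_ne_zero r
  push_cast
  field_simp

theorem tay_mul (D : Derivation L Ω Ω) (u v : Ω) : tay D (u * v) = tay D u * tay D v := by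
  have key : ∀ (r : ℕ) (u v : Ω), PowerSeries.coeff r (tay D (u * v)) =
      PowerSeries.coeff r (tay D u * tay D v) := by
    intro r
    induction r with
    | zero =>
      intro u v
      have h0 : ∀ u, PowerSeries.constantCoeff (tay D u) = u := fun u => by
        rw [← PowerSeries.coeff_zero_eq_constantCoeff_apply, tay_zero]
      rw [PowerSeries.coeff_zero_eq_constantCoeff_apply,
        PowerSeries.coeff_zero_eq_constantCoeff_apply, map_mul, h0, h0, h0]
    | succ r ih =>
      intro u v
      have h2 : ((r : Ω) + 1) ≠ 0 := by exact_mod_cast Nat.succ_ne_zero r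
      have e1 : PowerSeries.coeff (r + 1) (tay D (u * v)) * ((r : Ω) + 1) =
          PowerSeries.coeff r (tay D (D (u * v))) := by
        rw [← tay_der, PowerSeries.coeff_derivative]
      have e2 : PowerSeries.coeff (r + 1) (tay D u * tay D v) * ((r : Ω) + 1) =
          PowerSeries.coeff r (PowerSeries.derivative Ω (tay D u * tay D v)) := by
        rw [PowerSeries.coeff_derivative]
      rw [Derivation.leibniz, smul_eq_mul, smul_eq_mul, tay_add, map_add, ih, ih] at e1
      rw [Derivation.leibniz, smul_eq_mul, smul_eq_mul, tay_der, tay_der, map_add] at e2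
      exact mul_right_cancel₀ h2 (e1.trans e2.symm)
  ext r
  exact key r u v

omit [CharZero Ω] in
theorem tay_alg (D : Derivation L Ω Ω) (x : L) :
    tay D (algebraMap L Ω x) = PowerSeries.C (algebraMap L Ω x) := by
  ext r
  rcases r with _ | r
  · rw [tay_zero, PowerSeries.coeff_C, if_pos rfl]
  · rw [tay, PowerSeries.coeff_mk, Function.iterate_succ_apply, D.map_algebraMap,
      PowerSeries.coeff_C, if_neg (by omega)]
    have : ∀ r : ℕ, (D^[r]) (0 : Ω) = 0 := by
      intro r
      induction r with
      | zero => rfl
      | succ r ih => rw [Function.iterate_succ_apply, map_zero, ih]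
    rw [this, zero_mul]

/-- **The Taylor homomorphism.** -/
noncomputable def taylor (D : Derivation L Ω Ω) : Ω →ₐ[L] PowerSeries Ω where
  toFun := tay D
  map_one' := by
    have := tay_alg D (1 : L)
    rwa [map_one, map_one] at this
  map_mul' := tay_mul D
  map_zero' := by
    have := tay_alg D (0 : L)
    rwa [map_zero, map_zero] at this
  map_add' := tay_add D
  commutes' := by
    intro x
    rw [tay_alg, PowerSeries.algebraMap_apply]

theorem taylor_zero (D : Derivation L Ω Ω) (u : Ω) : PowerSeries.coeff 0 (taylor D u) = u :=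
  tay_zero D u

theorem taylor_one (D : Derivation L Ω Ω) (u : Ω) : PowerSeries.coeff 1 (taylor D u) = D u :=
  tay_one' D u

theorem taylor_alg (D : Derivation L Ω Ω) (x : L) :
    taylor D (algebraMap L Ω x) = PowerSeries.C (algebraMap L Ω x) := tay_alg D x

end Pool.Agent.U207.SM
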