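import Pool.Agent.U207.SM.Spz
import Pool.Agent.U207.SM.Tay

/-!
Project SM (helper207), part F: the fibres are finite.
-/

set_option autoImplicit false

namespace Pool.Agent.U207.SM

open MvPolynomial
open scoped LinearAlgebra.Projectivization

section ultra

/-- ultrapowers of a field -/
theorem exists_up (I L : Type) [Infinite I] [Field L] :
    ∃ (U : Ultrafilter I) (Ω : Type) (_ : Field Ω) (φ : (I → L) →+* Ω),
      (∀ s : Set I, s.Finite → s ∉ U) ∧
        ∀ f : I → L, φ f = 0 ↔ ∀ᶠ i in (U : Filter I), f i = 0 := by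
  refine ⟨Filter.hyperfilter I, Filter.Germ (Filter.hyperfilter I : Filter I) L, inferInstance,
    Filter.Germ.coeRingHom _, fun s hs => Filter.notMem_hyperfilter_of_finite hs, fun f => ?_⟩
  change ((f : Filter.Germ (Filter.hyperfilter I : Filter I) L) = ((0 : I → L) :
    Filter.Germ (Filter.hyperfilter I : Filter I) L)) ↔ _
  rw [Filter.Germ.coe_eq]
  rfl

end ultra

section

variable {K : Type} [Field K] {n N s d ρ : ℕ} {g : Fin s → MvPolynomial (Fin (n + 1)) K}
  {k0 : Fin (N + 1)} {a : Par n N s d → K}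

/-- jets in the fibres are constant -/
def NoJets (ρ : ℕ) (g : Fin s → MvPolynomial (Fin (n + 1)) K) (k0 : Fin (N + 1))
    (a : Par n N s d → K) : Prop :=
  ∀ (Ω : Type) [Field Ω] [Algebra K Ω] (H : Fin (n + 1) → ℕ → Ω) (w : Fin (N + 1) → Ω),
    (∀ i, ∀ r < ρ, jet g k0 (fun p => algebraMap K Ω (a p)) H w i r = 0) →
      (∃ k ≠ k0, w k ≠ 0) → ∀ p q, H p 0 * H q 1 = H q 0 * H p 1

theorem av_smul {Ω : Type} [Field Ω] [Algebra K Ω] (hg : ∀ i, (g i).IsHomogeneous d)
    (b : Par n N s d → Ω) (c : Ω) (h : Fin (n + 1) → Ω) (i : Fin s) (k : Fin (N + 1)) :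
    av g k0 b (c • h) i k = c ^ d * av g k0 b h i k := by
  unfold av
  split_ifs
  · exact Pool.Agent.U207.QK.aeval_scaleK (hg i) c h
  · rw [Finset.mul_sum]
    refine Finset.sum_congr rfl fun α _ => ?_
    rw [Pool.Agent.U207.QK.aeval_scaleK (mo_hom α) c h]
    ring

theorem fv_smul {Ω : Type} [Field Ω] [Algebra K Ω] (hg : ∀ i, (g i).IsHomogeneous d)
    (b : Par n N s d → Ω) (c : Ω) (h : Fin (n + 1) → Ω) (w : Fin (N + 1) → Ω) (i : Fin s) :
    fv g k0 b (c • h) w i = c ^ d * fv g k0 b h w i := by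
  unfold fv
  rw [Finset.mul_sum]
  refine Finset.sum_congr rfl fun k _ => ?_
  rw [av_smul hg]
  ring

/-- **The points of the fibres are algebraic.** -/
theorem fib_alg [CharZero K] (hg : ∀ i, (g i).IsHomogeneous d)
    (hJ : NoJets ρ g k0 a) {L Ω : Type} [Field L] [Algebra K L] [Field Ω] [Algebra K Ω]
    [Algebra L Ω] [IsScalarTower K L Ω] {w : Fin (N + 1) → L} (hw : ∃ k ≠ k0, w k ≠ 0)
    {h : Fin (n + 1) → Ω} {p : Fin (n + 1)} (hp : h p ≠ 0)
    (hF : ∀ i, fv g k0 (fun z => algebraMap K Ω (a z)) h (fun k => algebraMap L Ω (w k)) i = 0)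
    (q : Fin (n + 1)) : IsAlgebraic L (h q / h p) := by
  by_contra hx
  have hchL : CharZero L := charZero_of_injective_algebraMap (algebraMap K L).injective
  have hchΩ : CharZero Ω := charZero_of_injective_algebraMap (algebraMap K Ω).injective
  have h2 : AlgebraicIndependent L (fun _ : Unit => h q / h p) := by
    rw [algebraicIndependent_unique_type_iff]
    exact hx
  obtain ⟨D, hD⟩ := Pool.Agent.H135R2.VS.exists_der h2 (fun _ => 1)
  have hD1 : D (h q / h p) = 1 := hD ()
  set u : Fin (n + 1) → Ω := (h p)⁻¹ • h with hu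
  have hup : u p = 1 := by
    rw [hu, Pi.smul_apply, smul_eq_mul, inv_mul_cancel₀ hp]
  have huq : u q = h q / h p := by
    rw [hu, Pi.smul_apply, smul_eq_mul, div_eq_inv_mul]
  have hFu : ∀ i, fv g k0 (fun z => algebraMap K Ω (a z)) u (fun k => algebraMap L Ω (w k)) i =
      0 := fun i => by
    rw [hu, fv_smul hg, hF, mul_zero]
  let E : Ω →ₐ[K] PowerSeries Ω :=
    { (taylor D : Ω →+* PowerSeries Ω) with
      commutes' := by
        intro x
        change taylor D (algebraMap K Ω x) = _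
        rw [IsScalarTower.algebraMap_apply K L Ω x, taylor_alg, PowerSeries.algebraMap_apply,
          IsScalarTower.algebraMap_apply K L Ω x] }
  have hE : ∀ x, E x = taylor D x := fun x => rfl
  have hz := hJ Ω (fun j r => PowerSeries.coeff r (taylor D (u j)))
    (fun k => algebraMap L Ω (w k)) (fun i r _ => by
      unfold jet
      have h1 := fv_map E g k0 (fun z => algebraMap K Ω (a z)) u
        (fun k => algebraMap L Ω (w k)) i
      rw [hFu, map_zero] at h1
      have e1 : (fun z => E (algebraMap K Ω (a z))) =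
          fun z => PowerSeries.C (algebraMap K Ω (a z)) := by
        funext z
        rw [hE, IsScalarTower.algebraMap_apply K L Ω, taylor_alg]
      have e2 : (fun j => E (u j)) = fun j => PowerSeries.mk
          fun r => PowerSeries.coeff r (taylor D (u j)) := by
        funext j
        ext r
        rw [PowerSeries.coeff_mk, hE]
      have e3 : (fun k => E (algebraMap L Ω (w k))) =
          fun k => PowerSeries.C (algebraMap L Ω (w k)) := by
        funext k
        rw [hE, taylor_alg]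
      rw [e1, e2, e3] at h1
      rw [← h1, map_zero]) (by
      obtain ⟨k, hk, hwk⟩ := hw
      exact ⟨k, hk, (map_ne_zero_iff _ (algebraMap L Ω).injective).2 hwk⟩) p q
  simp only [taylor_zero, taylor_one] at hz
  rw [hup, huq, hD1, D.map_one_eq_zero] at hz
  simp at hz

/-- **The fibres are finite.** -/
theorem fib_finite [CharZero K] (hg : ∀ i, (g i).IsHomogeneous d)
    (hJ : NoJets ρ g k0 a) {L : Type} [Field L] [Algebra K L] {w : Fin (N + 1) → L}
    (hw : ∃ k ≠ k0, w k ≠ 0) :
    {Q : ℙ L (Fin (n + 1) → L) | ∀ i, fv g k0 (fun z => algebraMap K L (a z)) Q.rep w i =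
      0}.Finite := by
  classical
  by_contra hinf
  set S := {Q : ℙ L (Fin (n + 1) → L) | ∀ i, fv g k0 (fun z => algebraMap K L (a z)) Q.rep w i =
      0} with hS
  have hI : Infinite ↥S := Set.Infinite.to_subtype hinf
  obtain ⟨U, Ω, iΩ, φ, hU, hφ⟩ := exists_up ↥S L
  let iL : Algebra L Ω := (φ.comp (Pi.constRingHom ↥S L)).toAlgebra
  let iK : Algebra K Ω := ((algebraMap L Ω).comp (algebraMap K L)).toAlgebra
  have iT : IsScalarTower K L Ω := IsScalarTower.of_algebraMap_eq fun _ => rfl
  have hconst : ∀ x : L, algebraMap L Ω x = φ fun _ => x := fun x => rfl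
  let φK : (↥S → L) →ₐ[K] Ω :=
    { φ with
      commutes' := by
        intro x
        rfl }
  set h : Fin (n + 1) → Ω := fun j => φ fun Q => Q.1.rep j with hh
  obtain ⟨p, hp⟩ : ∃ p, h p ≠ 0 := by
    by_contra hcon
    push Not at hcon
    have h1 : ∀ᶠ Q in (U : Filter ↥S), ∀ j, Q.1.rep j = 0 := by
      rw [Filter.eventually_all]
      exact fun j => (hφ _).1 (hcon j)
    obtain ⟨Q, hQ⟩ := h1.exists
    exact Q.1.rep_nonzero (funext hQ)
  have hF : ∀ i, fv g k0 (fun z => algebraMap K Ω (a z)) h (fun k => algebraMap L Ω (w k)) i =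
      0 := by
    intro i
    have h1 := fv_map φK g k0 (fun z => algebraMap K (↥S → L) (a z)) (fun j Q => Q.1.rep j)
      (fun k _ => w k) i
    have h2 : fv g k0 (fun z => algebraMap K (↥S → L) (a z)) (fun j (Q : ↥S) => Q.1.rep j)
        (fun k _ => w k) i = 0 := by
      funext Q
      have h3 := fv_map (Pi.evalAlgHom K (fun _ : ↥S => L) Q) g k0
        (fun z => algebraMap K (↥S → L) (a z)) (fun j Q => Q.1.rep j) (fun k _ => w k) i
      exact h3.trans (Q.2 i)
    rw [h2, map_zero] at h1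
    exact h1.symm
  have hpU : ∀ᶠ Q in (U : Filter ↥S), Q.1.rep p ≠ 0 := by
    rw [Ultrafilter.eventually_not]
    exact fun h0 => hp ((hφ _).2 h0)
  have key : ∀ q, ∃ x : L, ∀ᶠ Q in (U : Filter ↥S), Q.1.rep q = x * Q.1.rep p := by
    intro q
    obtain ⟨f, hf0, hf⟩ := fib_alg hg hJ hw hp hF q
    have e1 : h q / h p = φ fun Q => Q.1.rep q / Q.1.rep p := by
      rw [div_eq_iff hp, hh, ← map_mul]
      rw [← sub_eq_zero, ← map_sub, hφ]
      filter_upwards [hpU] with Q hQ
      simp only [Pi.sub_apply, Pi.mul_apply]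
      rw [div_mul_cancel₀ _ hQ, sub_self]
    have e2 : Polynomial.aeval (h q / h p) f =
        φ fun Q => f.eval (Q.1.rep q / Q.1.rep p) := by
      rw [e1]
      let φL : (↥S → L) →ₐ[L] Ω :=
        { φ with
          commutes' := by
            intro x
            rfl }
      have h3 := Polynomial.aeval_algHom_apply φL (fun Q : ↥S => Q.1.rep q / Q.1.rep p) f
      refine h3.trans ?_
      change φ _ = φ _
      congr 1
      funext Q
      have h4 := Polynomial.aeval_algHom_apply (Pi.evalAlgHom L (fun _ : ↥S => L) Q)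
        (fun Q : ↥S => Q.1.rep q / Q.1.rep p) f
      have h5 : (Polynomial.aeval fun Q : ↥S => Q.1.rep q / Q.1.rep p) f Q =
        Polynomial.aeval (Q.1.rep q / Q.1.rep p) f := h4.symm
      rw [h5, Polynomial.coe_aeval_eq_eval]
    rw [e2, hφ] at hf
    have h6 : ∀ᶠ Q in (U : Filter ↥S), ∃ x ∈ f.rootSet L, Q.1.rep q / Q.1.rep p = x := by
      filter_upwards [hf] with Q hQ
      refine ⟨_, ?_, rfl⟩
      rw [Polynomial.mem_rootSet]
      exact ⟨hf0, by rw [Polynomial.coe_aeval_eq_eval]; exact hQ⟩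
    rw [Ultrafilter.eventually_exists_mem_iff (f.rootSet_finite L)] at h6
    obtain ⟨x, -, hx⟩ := h6
    refine ⟨x, ?_⟩
    filter_upwards [hx, hpU] with Q h7 h8
    rw [← h7, div_mul_cancel₀ _ h8]
  choose x hx using key
  have hall : ∀ᶠ Q in (U : Filter ↥S), (∀ q, Q.1.rep q = x q * Q.1.rep p) ∧ Q.1.rep p ≠ 0 := by
    refine Filter.Eventually.and ?_ hpU
    rw [Filter.eventually_all]
    exact hx
  refine hU _ ?_ hall
  refine Set.Subsingleton.finite ?_
  intro Q hQ Q' hQ'
  obtain ⟨h1, h2⟩ := hQ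
  obtain ⟨h3, h4⟩ := hQ'
  apply Subtype.ext
  rw [← Q.1.mk_rep, ← Q'.1.mk_rep, Projectivization.mk_eq_mk_iff']
  refine ⟨Q.1.rep p / Q'.1.rep p, funext fun q => ?_⟩
  rw [Pi.smul_apply, smul_eq_mul, h1 q, h3 q]
  field_simp

end

end Pool.Agent.U207.SM
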