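import Pool.Agent.U207.SM.Thm
import Pool.Agent.U207.QC.Defs
import Pool.Agent.N254.SQ.LocDefs6

/-!
Project SM (helper207): groupless and arithmetically hyperbolic varieties over the complex numbers.
-/

set_option autoImplicit false

namespace Pool.Agent.U207.SM

open MvPolynomial
open scoped LinearAlgebra.Projectivization
open Pool.Agent.U207.QC (hI IsAbelianLattice)
open Pool.Agent.U207.QK (coverForm SmoothCover base_ne aeval_scaleK)
open Pool.Agent.N254.SQ (RingPoint)

section defs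

variable {ι : Type} {n m : ℕ}

/-- The closed subset `X` of `P^n` over `ℂ` given by the forms `F i` is groupless: all morphisms from
abelian varieties `ℂ^g / L` to `X` are constant. They are given by entire functions of `g` variables
without common zeros which are multiplied by a common factor under the translations in `L`. -/
def Groupless (F : ι → MvPolynomial (Fin (n + 1)) ℂ) : Prop :=
  ∀ (g : ℕ) (L : AddSubgroup (Fin g → ℂ)), IsAbelianLattice L →
    ∀ f : (Fin g → ℂ) → Fin (n + 1) → ℂ, Differentiable ℂ f → (∀ z, f z ≠ 0) →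
      (∀ z, ∀ l ∈ L, ∃ c : ℂ, f (z + l) = c • f z) → (∀ z i, eval (f z) (F i) = 0) →
        ∀ z w, ∃ c : ℂ, f z = c • f w

/-- The closed subset `Y` of `P^n × P^m` over `ℂ` given by the polynomials `E i` is groupless. -/
def Groupless₂ (E : ι → MvPolynomial (Fin (n + 1) ⊕ Fin (m + 1)) ℂ) : Prop :=
  ∀ (g : ℕ) (L : AddSubgroup (Fin g → ℂ)), IsAbelianLattice L →
    ∀ (f : (Fin g → ℂ) → Fin (n + 1) → ℂ) (f' : (Fin g → ℂ) → Fin (m + 1) → ℂ),
      Differentiable ℂ f → Differentiable ℂ f' → (∀ z, f z ≠ 0) → (∀ z, f' z ≠ 0) →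
        (∀ z, ∀ l ∈ L, ∃ c : ℂ, f (z + l) = c • f z) →
        (∀ z, ∀ l ∈ L, ∃ c : ℂ, f' (z + l) = c • f' z) →
        (∀ z i, eval (Sum.elim (f z) (f' z)) (E i) = 0) →
          ∀ z w, (∃ c : ℂ, f z = c • f w) ∧ ∃ c : ℂ, f' z = c • f' w

/-- the `A`-valued points of `X`, for a subring `A` of `ℂ` (see `RingPoint`) -/
def ringPoints (A : Subring ℂ) (F : ι → MvPolynomial (Fin (n + 1)) ℂ) :
    Set (ℙ ℂ (Fin (n + 1) → ℂ)) := {Q | RingPoint A Q ∧ Q ∈ points ℂ F}

/-- the `A`-valued points of `Y` in `P^n × P^m` -/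
def ringPoints₂ (A : Subring ℂ) (E : ι → MvPolynomial (Fin (n + 1) ⊕ Fin (m + 1)) ℂ) :
    Set (ℙ ℂ (Fin (n + 1) → ℂ) × ℙ ℂ (Fin (m + 1) → ℂ)) :=
  {Q | RingPoint A Q.1 ∧ RingPoint A Q.2 ∧ Q ∈ points₂ ℂ E}

/-- `X` is arithmetically hyperbolic: for all finitely generated subrings `A` of `ℂ` there are only
finitely many `A`-valued points of `X`. (This is enough for all models, as two models become
isomorphic over a larger finitely generated ring.) -/
def ArithHyp (F : ι → MvPolynomial (Fin (n + 1)) ℂ) : Prop :=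
  ∀ s : Finset ℂ, (ringPoints (Subring.closure (s : Set ℂ)) F).Finite

/-- `Y` is arithmetically hyperbolic -/
def ArithHyp₂ (E : ι → MvPolynomial (Fin (n + 1) ⊕ Fin (m + 1)) ℂ) : Prop :=
  ∀ s : Finset ℂ, (ringPoints₂ (Subring.closure (s : Set ℂ)) E).Finite

end defs

/-- continuous maps from a connected space to finitely many points are constant -/
theorem const_of_fin {E : Type} [TopologicalSpace E] [PreconnectedSpace E] {n : ℕ}
    {f : E → Fin (n + 1) → ℂ} (hf : Continuous f)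
    (hf0 : ∀ z, f z ≠ 0) {S : Set (ℙ ℂ (Fin (n + 1) → ℂ))} (hS : S.Finite)
    (h : ∀ z, Projectivization.mk ℂ (f z) (hf0 z) ∈ S) :
    ∀ z w, ∃ c : ℂ, f z = c • f w := by
  classical
  set q : E → ℙ ℂ (Fin (n + 1) → ℂ) := fun z => Projectivization.mk ℂ (f z) (hf0 z) with hq
  have hclosed : ∀ Q, IsClosed {z | q z = Q} := by
    intro Q
    have h1 : {z | q z = Q} = ⋂ i, ⋂ j, {z | f z i * Q.rep j = f z j * Q.rep i} := by
      ext z
      simp only [Set.mem_ofPred_eq, Set.mem_iInter]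
      constructor
      · intro h2 i j
        have h3 : Projectivization.mk ℂ (f z) (hf0 z) =
            Projectivization.mk ℂ Q.rep Q.rep_nonzero := h2.trans Q.mk_rep.symm
        obtain ⟨c, hc⟩ := (Projectivization.mk_eq_mk_iff' ℂ _ _ _ _).1 h3
        rw [← hc]
        simp only [Pi.smul_apply, smul_eq_mul]
        ring
      · intro h2
        change Projectivization.mk ℂ (f z) (hf0 z) = Q
        rw [← Q.mk_rep, Projectivization.mk_eq_mk_iff']
        obtain ⟨j, hj⟩ := Function.ne_iff.1 Q.rep_nonzero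
        refine ⟨f z j / Q.rep j, funext fun i => ?_⟩
        rw [Pi.smul_apply, smul_eq_mul, div_mul_eq_mul_div, ← h2 i j, mul_div_assoc, div_self hj,
          mul_one]
    rw [h1]
    refine isClosed_iInter fun i => isClosed_iInter fun j => ?_
    have h3 : ∀ i, Continuous fun z => f z i := fun i => (continuous_apply i).comp hf
    exact isClosed_eq ((h3 i).mul continuous_const) ((h3 j).mul continuous_const)
  have hloc : IsLocallyConstant q := by
    rw [IsLocallyConstant.iff_isOpen_fiber]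
    intro Q
    have h1 : {z | q z = Q} = (⋃ Q' ∈ S \ {Q}, {z | q z = Q'})ᶜ := by
      ext z
      simp only [Set.mem_ofPred_eq, Set.mem_compl_iff, Set.mem_iUnion, Set.mem_sdiff,
        Set.mem_singleton_iff, not_exists]
      constructor
      · rintro h2 Q' ⟨-, h3⟩ h4
        exact h3 (h4.symm.trans h2)
      · intro h2
        by_contra h3
        exact h2 (q z) ⟨h z, h3⟩ rfl
    change IsOpen {z | q z = Q}
    rw [h1, isOpen_compl_iff]
    exact (hS.subset Set.sdiff_subset).isClosed_biUnion fun Q' _ => hclosed Q'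
  intro z w
  have h1 : q z = q w := hloc.apply_eq_of_preconnectedSpace z w
  obtain ⟨c, hc⟩ := (Projectivization.mk_eq_mk_iff' ℂ _ _ _ _).1 h1
  exact ⟨c, hc.symm⟩

section model

variable {n N s c : ℕ} {A : Fin s → Fin (N + 1) → MvPolynomial (Fin (n + 1)) ℂ}
  {P : Fin c → MvPolynomial (Fin (N + 1)) ℂ}

theorem eval_aeval {τ : Type} (x : τ → ℂ) (p : MvPolynomial τ ℂ) : eval x p = aeval x p := by
  rw [← MvPolynomial.coe_aeval_eq_eval]
  rfl

/-- holomorphic maps from `ℂ^g` to the base are constant -/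
theorem base_const (h : Model A P) {g : ℕ} {f : (Fin g → ℂ) → Fin (N + c + 1) → ℂ}
    (hf : Differentiable ℂ f) (hf0 : ∀ z, f z ≠ 0) (hfP : ∀ z l, eval (f z) (coverForm P l) = 0)
    (z w : Fin g → ℂ) : ∃ b : ℂ, f z = b • f w := by
  have h1 := h.base_hyp (RingHom.id ℂ) (fun t => f (w + t • (z - w)))
    (hf.comp ((differentiable_const _).add (differentiable_id.smul_const _)))
    (fun t => hf0 _) (fun t l => hfP _ l) 1 0
  simpa using h1

/-- **Grouplessness of the models.** -/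
theorem gpl_model (h : Model A P) :
    Groupless₂ (modelEqs A P) ↔ Groupless fun i => A i 0 := by
  obtain ⟨d, hd⟩ := h.deg
  constructor
  · intro hY g L hL f hf hf0 hfL hfX z w
    refine (hY g L hL f (fun _ => bp ℂ N c) hf (differentiable_const _) hf0 (fun _ => bp_ne ℂ) hfL
      (fun _ _ _ => ⟨1, by rw [one_smul]⟩) ?_ z w).1
    intro z i
    rw [eval_aeval]
    rcases i with i | l
    · rw [eval_inl, bp_sum, ← eval_aeval]
      exact hfX z i
    · rw [eval_inr]
      exact bp_mem h ℂ l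
  · intro hX g L hL f f' hf hf' hf0 hf'0 hfL hf'L hff
    have hfg1 : ∀ z i, ∑ k, f' z (hI N c k) * aeval (f z) (A i k) = 0 := fun z i => by
      have := hff z (Sum.inl i)
      rwa [eval_aeval, eval_inl] at this
    have hfg2 : ∀ z l, aeval (f' z) (coverForm P l) = 0 := fun z l => by
      have := hff z (Sum.inr l)
      rwa [eval_aeval, eval_inr] at this
    have hgc : ∀ z w, ∃ c : ℂ, f' z = c • f' w := base_const h hf' hf'0 fun z l => by
      rw [eval_aeval]
      exact hfg2 z l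
    have hfg3 : ∀ z i, ∑ k, f' 0 (hI N c k) * aeval (f z) (A i k) = 0 := by
      intro z i
      obtain ⟨b, hb⟩ := hgc 0 z
      rw [hb]
      simp only [Pi.smul_apply, smul_eq_mul, mul_assoc, ← Finset.mul_sum]
      rw [hfg1, mul_zero]
    have hfc : ∀ z w, ∃ c : ℂ, f z = c • f w := by
      by_cases hw : ∃ k ≠ 0, f' 0 (hI N c k) ≠ 0
      · refine const_of_fin hf.continuous hf0 (h.fib ℂ (f' 0) (hfg2 0) hw) fun z i => ?_
        obtain ⟨b, hb⟩ := Projectivization.exists_smul_eq_mk_rep ℂ (f z) (hf0 z)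
        rw [← hb]
        have := hom_smul (b : ℂ) (f z) (f' 0) i hd
        rw [hfg3, mul_zero] at this
        exact this
      · push Not at hw
        refine hX g L hL f hf hf0 hfL fun z i => ?_
        rw [eval_aeval]
        exact mem_zero h (hf'0 0) (hfg2 0) hw (hfg3 z i)
    exact fun z w => ⟨hfc z w, hgc z w⟩

/-- the base is groupless -/
theorem base_gpl (h : Model A P) : Groupless (coverForm P) :=
  fun _ _ _ _ hf hf0 _ hfP => base_const h hf hf0 hfP

/-- vectors with entries in the ring, one of them `1` -/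
theorem ringPoint_of {M : ℕ} (B : Subring ℂ) (x : Fin (M + 1) → B) {j : Fin (M + 1)}
    (hj : x j = 1) (hx : (fun j => (x j : ℂ)) ≠ 0) :
    RingPoint B (Projectivization.mk ℂ _ hx) := by
  unfold RingPoint
  rw [Ideal.eq_top_iff_one]
  exact Ideal.subset_span ⟨x, hx, rfl, j, hj⟩

theorem bp_ring (B : Subring ℂ) :
    RingPoint B (Projectivization.mk ℂ (bp ℂ N c) (bp_ne ℂ)) := by
  classical
  let x : Fin (N + c + 1) → B := fun j => if bp ℂ N c j = 0 then 0 else 1
  have hx : (fun j => (x j : ℂ)) = bp ℂ N c := by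
    funext j
    simp only [x]
    by_cases h0 : bp ℂ N c j = 0
    · rw [if_pos h0, h0]
      rfl
    · rw [if_neg h0]
      rcases Pool.Agent.U207.QC.idx_cases (N := N) (c := c) j with ⟨k, rfl⟩ | ⟨l, rfl⟩
      · rw [bp_h] at h0 ⊢
        by_cases hk : k = 0
        · subst hk
          rw [Pi.single_eq_same]
          rfl
        · rw [Pi.single_eq_of_ne hk] at h0
          exact absurd rfl h0
      · unfold bp
        rw [Pool.Agent.U207.QC.pt_x]
        rfl
  have h1 : x (hI N c 0) = 1 := by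
    simp only [x]
    rw [if_neg]
    rw [bp_h, Pi.single_eq_same]
    exact one_ne_zero
  have h2 := ringPoint_of B x h1 (by rw [hx]; exact bp_ne ℂ)
  have h3 : Projectivization.mk ℂ (fun j => (x j : ℂ)) (by rw [hx]; exact bp_ne ℂ) =
      Projectivization.mk ℂ (bp ℂ N c) (bp_ne ℂ) := by
    congr 1
  rw [h3] at h2
  exact h2

/-- `A`-valued points of `X` and of the models -/
theorem ring_down (h : Model A P) (B : Subring ℂ)
    (hY : (ringPoints₂ B (modelEqs A P)).Finite) : (ringPoints B fun i => A i 0).Finite := by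
  obtain ⟨d, hd⟩ := h.deg
  let φ : ℙ ℂ (Fin (n + 1) → ℂ) → ℙ ℂ (Fin (n + 1) → ℂ) × ℙ ℂ (Fin (N + c + 1) → ℂ) := fun Q =>
    (Q, Projectivization.mk ℂ (bp ℂ N c) (bp_ne ℂ))
  have hφ : Function.Injective φ := fun Q Q' hQ => congrArg Prod.fst hQ
  apply Set.Finite.of_finite_image (f := φ) (hY.subset ?_) hφ.injOn
  rintro _ ⟨Q, ⟨hQA, hQ⟩, rfl⟩
  refine ⟨hQA, bp_ring B, fun i => ?_⟩
  obtain ⟨b, hb⟩ := Projectivization.exists_smul_eq_mk_rep ℂ (bp ℂ N c) (bp_ne ℂ)
  change aeval (Sum.elim Q.rep (Projectivization.mk ℂ (bp ℂ N c) (bp_ne ℂ)).rep) _ = 0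
  rw [← hb]
  rcases i with i | l
  · rw [eval_inl]
    have h1 : ∀ k, ((b : ℂˣ) • bp ℂ N c) (hI N c k) = (b : ℂ) * bp ℂ N c (hI N c k) :=
      fun k => rfl
    simp only [h1, mul_assoc, ← Finset.mul_sum, bp_sum]
    have h2 : aeval Q.rep (A i 0) = 0 := hQ i
    rw [h2, mul_zero]
  · rw [eval_inr]
    have h1 : ((b : ℂˣ) • bp ℂ N c) = (b : ℂ) • bp ℂ N c := rfl
    rw [h1, aeval_scaleK (Pool.Agent.U207.QK.cover_hom h.deg_two l), bp_mem h ℂ l, mul_zero]

theorem ring_up (h : Model A P) (B : Subring ℂ)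
    (hV : (ringPoints B (coverForm P)).Finite) (hX : (ringPoints B fun i => A i 0).Finite) :
    (ringPoints₂ B (modelEqs A P)).Finite := by
  apply Set.Finite.of_finite_fibers Prod.snd
  · refine hV.subset ?_
    rintro _ ⟨Q, ⟨-, hQA, hQ⟩, rfl⟩
    refine ⟨hQA, fun l => ?_⟩
    have := hQ (Sum.inr l)
    rwa [eval_inr] at this
  · rintro R ⟨Q, ⟨-, -, hQ⟩, rfl⟩
    have hR : ∀ l, aeval Q.2.rep (coverForm P l) = 0 := fun l => by
      have := hQ (Sum.inr l)
      rwa [eval_inr] at this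
    have hfin : {Q' : ℙ ℂ (Fin (n + 1) → ℂ) | RingPoint B Q' ∧
        ∀ i, ∑ k, Q.2.rep (hI N c k) * aeval Q'.rep (A i k) = 0}.Finite := by
      by_cases hw : ∃ k ≠ 0, Q.2.rep (hI N c k) ≠ 0
      · exact (h.fib ℂ Q.2.rep hR hw).subset fun Q' hQ' => hQ'.2
      · push Not at hw
        refine hX.subset fun Q' hQ' => ⟨hQ'.1, fun i => ?_⟩
        exact mem_zero h Q.2.rep_nonzero hR hw (hQ'.2 i)
    refine Set.Finite.subset (hfin.image fun Q' => (Q', Q.2)) ?_
    rintro ⟨Q', R'⟩ ⟨⟨hQB, -, hQ'⟩, hR'⟩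
    have hR'' : R' = Q.2 := hR'
    subst hR''
    refine ⟨Q', ⟨hQB, fun i => ?_⟩, rfl⟩
    have := hQ' (Sum.inl i)
    rwa [eval_inl] at this

end model

/-- the four statements -/
def GHalfAll : Prop :=
  ∀ (n : ℕ) (ι : Type) [Finite ι] (F : ι → MvPolynomial (Fin (n + 1)) ℂ),
    (∀ i, ∃ e, (F i).IsHomogeneous e) → Groupless F → ArithHyp F

/-- Q1 for all projective varieties over `ℂ`, with arbitrary singularities -/
def GQ1All : Prop :=
  ∀ (n : ℕ) (ι : Type) [Finite ι] (F : ι → MvPolynomial (Fin (n + 1)) ℂ),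
    (∀ i, ∃ e, (F i).IsHomogeneous e) → (Groupless F ↔ ArithHyp F)

/-- the implication, for the models -/
def GHalfModels : Prop :=
  ∀ (n N c s : ℕ) (A : Fin s → Fin (N + 1) → MvPolynomial (Fin (n + 1)) ℂ)
    (P : Fin c → MvPolynomial (Fin (N + 1)) ℂ), Model A P →
      Groupless₂ (modelEqs A P) → ArithHyp₂ (modelEqs A P)

/-- Q1 for the models -/
def GQ1Models : Prop :=
  ∀ (n N c s : ℕ) (A : Fin s → Fin (N + 1) → MvPolynomial (Fin (n + 1)) ℂ)
    (P : Fin c → MvPolynomial (Fin (N + 1)) ℂ), Model A P →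
      (Groupless₂ (modelEqs A P) ↔ ArithHyp₂ (modelEqs A P))

/-- the base as a model -/
theorem base_ring {N c : ℕ} {P : Fin c → MvPolynomial (Fin (N + 1)) ℂ} (B : Subring ℂ)
    (hY : (ringPoints₂ B (modelEqs (n := 0) (s := 0) (fun i => i.elim0) P)).Finite) :
    (ringPoints B (coverForm P)).Finite := by
  have h1 : (fun j => (((fun _ => 1 : Fin (0 + 1) → B) j : B) : ℂ)) ≠ 0 :=
    fun h => one_ne_zero (congrFun h 0)
  let φ : ℙ ℂ (Fin (N + c + 1) → ℂ) → ℙ ℂ (Fin (0 + 1) → ℂ) × ℙ ℂ (Fin (N + c + 1) → ℂ) := fun Q =>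
    (Projectivization.mk ℂ _ h1, Q)
  have hφ : Function.Injective φ := fun Q Q' hQ => congrArg Prod.snd hQ
  apply Set.Finite.of_finite_image (f := φ) (hY.subset ?_) hφ.injOn
  rintro _ ⟨Q, ⟨hQB, hQ⟩, rfl⟩
  refine ⟨ringPoint_of B (fun _ => 1) (j := 0) rfl h1, hQB, fun i => ?_⟩
  rcases i with i | l
  · exact i.elim0
  · rw [eval_inr]
    exact hQ l

theorem base_gpl₂ {n N s c : ℕ} {A : Fin s → Fin (N + 1) → MvPolynomial (Fin (n + 1)) ℂ}
    {P : Fin c → MvPolynomial (Fin (N + 1)) ℂ} (h : Model A P) :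
    Groupless₂ (modelEqs (n := 0) (s := 0) (fun i => i.elim0) P) := by
  rw [gpl_model (base_model h)]
  intro g L _ f _ hf0 _ _ z w
  have h0 : ∀ j : Fin (0 + 1), j = 0 := fun j => Fin.ext (by omega)
  have h1 : f w 0 ≠ 0 := by
    intro h2
    apply hf0 w
    funext j
    rw [h0 j]
    exact h2
  refine ⟨f z 0 / f w 0, funext fun j => ?_⟩
  rw [h0 j, Pi.smul_apply, smul_eq_mul, div_mul_cancel₀ _ h1]

theorem gpl_congr {n : ℕ} {ι ι' : Type} {F : ι → MvPolynomial (Fin (n + 1)) ℂ}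
    {F' : ι' → MvPolynomial (Fin (n + 1)) ℂ}
    (h : ∀ x : Fin (n + 1) → ℂ, x ≠ 0 → ((∀ i, aeval x (F i) = 0) ↔ ∀ i, aeval x (F' i) = 0)) :
    Groupless F ↔ Groupless F' := by
  constructor
  · intro hF g L hL f hf hf0 hfL hfF
    exact hF g L hL f hf hf0 hfL fun z => by
      simp only [eval_aeval] at hfF ⊢
      exact (h (f z) (hf0 z)).2 (hfF z)
  · intro hF g L hL f hf hf0 hfL hfF
    exact hF g L hL f hf hf0 hfL fun z => by
      simp only [eval_aeval] at hfF ⊢
      exact (h (f z) (hf0 z)).1 (hfF z)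

theorem ring_congr {n : ℕ} {ι ι' : Type} {F : ι → MvPolynomial (Fin (n + 1)) ℂ}
    {F' : ι' → MvPolynomial (Fin (n + 1)) ℂ}
    (h : ∀ x : Fin (n + 1) → ℂ, x ≠ 0 → ((∀ i, aeval x (F i) = 0) ↔ ∀ i, aeval x (F' i) = 0))
    (B : Subring ℂ) : ringPoints B F = ringPoints B F' := by
  ext Q
  exact and_congr_right fun _ => h Q.rep Q.rep_nonzero

/-- **The models suffice.** -/
theorem ghalf : GHalfAll ↔ GHalfModels := by
  constructor
  · intro h n N c s A P hM hY t
    obtain ⟨d, hd⟩ := hM.deg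
    exact ring_up hM _ (h (N + c) (Fin c) (coverForm P) (fun l => ⟨2,
        Pool.Agent.U207.QK.cover_hom hM.deg_two l⟩) (base_gpl hM) t)
      (h n (Fin s) (fun i => A i 0) (fun i => ⟨d, hd i 0⟩) ((gpl_model hM).1 hY) t)
  · intro h n ι _ F hF hG t
    obtain ⟨N, c, s, A, P, hM, hAF⟩ := exists_model_of ℂ F hF
    have hAF' : ∀ x : Fin (n + 1) → ℂ, x ≠ 0 →
        ((∀ i, aeval x (A i 0) = 0) ↔ ∀ i, aeval x (F i) = 0) := fun x hx => hAF ℂ x hx
    rw [← ring_congr hAF']
    exact ring_down hM _ (h n N c s A P hM ((gpl_model hM).2 ((gpl_congr hAF').2 hG)) t)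

theorem gq1 : GQ1All ↔ GQ1Models := by
  constructor
  · intro h n N c s A P hM
    obtain ⟨d, hd⟩ := hM.deg
    rw [gpl_model hM, h n (Fin s) (fun i => A i 0) (fun i => ⟨d, hd i 0⟩)]
    have hV := (h (N + c) (Fin c) (coverForm P) (fun l => ⟨2,
        Pool.Agent.U207.QK.cover_hom hM.deg_two l⟩)).1 (base_gpl hM)
    exact ⟨fun h1 t => ring_up hM _ (hV t) (h1 t), fun h1 t => ring_down hM _ (h1 t)⟩
  · intro h n ι _ F hF
    obtain ⟨N, c, s, A, P, hM, hAF⟩ := exists_model_of ℂ F hF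
    have hAF' : ∀ x : Fin (n + 1) → ℂ, x ≠ 0 →
        ((∀ i, aeval x (A i 0) = 0) ↔ ∀ i, aeval x (F i) = 0) := fun x hx => hAF ℂ x hx
    have hV : ArithHyp₂ (modelEqs (n := 0) (s := 0) (fun i => i.elim0) P) :=
      (h 0 N c 0 _ P (base_model hM)).1 (base_gpl₂ hM)
    rw [← gpl_congr hAF', ← gpl_model hM, h n N c s A P hM]
    constructor
    · intro h1 t
      rw [← ring_congr hAF']
      exact ring_down hM _ (h1 t)
    · intro h1 t
      have h2 := h1 t
      rw [← ring_congr hAF'] at h2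
      exact ring_up hM _ (base_ring _ (hV t)) h2

end Pool.Agent.U207.SM
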