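import Pool.Agent.U207.SM.Mod

/-!
Project SM (helper207), part I: hyperbolicity and rational points of the models.
-/

set_option autoImplicit false

namespace Pool.Agent.U207.SM

open MvPolynomial
open scoped LinearAlgebra.Projectivization
open Pool.Agent.U207.QC (hI xI pt pt_h pt_x pt_hI pt_ne hI_inj hI_ne_xI)
open Pool.Agent.U207.QK (coverForm SmoothCover base_ne aeval_scaleK)

/-- continuous maps to finitely many points are constant -/
theorem const_of_finite {n : ℕ} {f : ℂ → Fin (n + 1) → ℂ} (hf : Continuous f)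
    (hf0 : ∀ z, f z ≠ 0) {S : Set (ℙ ℂ (Fin (n + 1) → ℂ))} (hS : S.Finite)
    (h : ∀ z, Projectivization.mk ℂ (f z) (hf0 z) ∈ S) :
    ∀ z w, ∃ c : ℂ, f z = c • f w := by
  classical
  set q : ℂ → ℙ ℂ (Fin (n + 1) → ℂ) := fun z => Projectivization.mk ℂ (f z) (hf0 z) with hq
  have hclosed : ∀ Q, IsClosed {z | q z = Q} := by
    intro Q
    have h1 : {z | q z = Q} = ⋂ i, ⋂ j, {z | f z i * Q.rep j = f z j * Q.rep i} := by
      ext z
      simp only [Set.mem_ofPred_eq, Set.mem_iInter]
      constructor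
      · intro h2 i j
        have h3 : Projectivization.mk ℂ (f z) (hf0 z) =
            Projectivization.mk ℂ Q.rep Q.rep_nonzero := h2.trans Q.mk_rep.symm
        obtain ⟨c, hc⟩ := (Projectivization.mk_eq_mk_iff' ℂ _ _ _ _).1 h3
        rw [← hc]
        simp only [Pi.smul_apply, smul_eq_mul]
        ring
      · intro h2
        change Projectivization.mk ℂ (f z) (hf0 z) = Q
        rw [← Q.mk_rep, Projectivization.mk_eq_mk_iff']
        obtain ⟨j, hj⟩ := Function.ne_iff.1 Q.rep_nonzero
        refine ⟨f z j / Q.rep j, funext fun i => ?_⟩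
        rw [Pi.smul_apply, smul_eq_mul, div_mul_eq_mul_div, ← h2 i j, mul_div_assoc, div_self hj,
          mul_one]
    rw [h1]
    refine isClosed_iInter fun i => isClosed_iInter fun j => ?_
    have h3 : ∀ i, Continuous fun z => f z i := fun i => (continuous_apply i).comp hf
    exact isClosed_eq ((h3 i).mul continuous_const) ((h3 j).mul continuous_const)
  have hloc : IsLocallyConstant q := by
    rw [IsLocallyConstant.iff_isOpen_fiber]
    intro Q
    have h1 : {z | q z = Q} = (⋃ Q' ∈ S \ {Q}, {z | q z = Q'})ᶜ := by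
      ext z
      simp only [Set.mem_ofPred_eq, Set.mem_compl_iff, Set.mem_iUnion, Set.mem_sdiff,
        Set.mem_singleton_iff, not_exists]
      constructor
      · rintro h2 Q' ⟨-, h3⟩ h4
        exact h3 (h4.symm.trans h2)
      · intro h2
        by_contra h3
        exact h2 (q z) ⟨h z, h3⟩ rfl
    change IsOpen {z | q z = Q}
    rw [h1, isOpen_compl_iff]
    exact (hS.subset Set.sdiff_subset).isClosed_biUnion fun Q' _ => hclosed Q'
  intro z w
  have h1 : q z = q w := hloc.apply_eq_of_preconnectedSpace z w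
  obtain ⟨c, hc⟩ := (Projectivization.mk_eq_mk_iff' ℂ _ _ _ _).1 h1
  exact ⟨c, hc.symm⟩

section model

variable {K : Type} [Field K] {n N s c : ℕ}
  {A : Fin s → Fin (N + 1) → MvPolynomial (Fin (n + 1)) K}
  {P : Fin c → MvPolynomial (Fin (N + 1)) K}

/-- the base point of `V` -/
def bp (L : Type) [Field L] (N c : ℕ) : Fin (N + c + 1) → L :=
  pt (Pi.single 0 1) (fun _ => 1)

theorem bp_h (L : Type) [Field L] (k : Fin (N + 1)) :
    bp L N c (hI N c k) = (Pi.single 0 1 : Fin (N + 1) → L) k := pt_h _ _ k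

theorem bp_ne (L : Type) [Field L] : bp L N c ≠ 0 := by
  refine pt_ne ?_ _
  intro h
  have := congrFun h 0
  simp at this

theorem bp_mem (h : Model A P) (L : Type) [Field L] [Algebra K L] (l : Fin c) :
    aeval (bp L N c) (coverForm P l) = 0 := by
  have h1 := Pool.Agent.U207.QK.aeval_cover (P := P) (bp L N c) l
  rw [h1]
  have h2 : bp L N c (xI N c l) = 1 := pt_x _ _ l
  have h3 : bp L N c ∘ hI N c = Pi.single 0 1 := pt_hI _ _
  rw [h2, h3]
  have h4 : (Pi.single 0 1 : Fin (N + 1) → L) =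
      fun k => algebraMap K L ((Pi.single 0 1 : Fin (N + 1) → K) k) := by
    funext k
    by_cases hk : k = 0
    · subst hk
      simp
    · rw [Pi.single_eq_of_ne hk, Pi.single_eq_of_ne hk, map_zero]
  rw [h4]
  have h5 := aeval_algebraMap_apply L (Pi.single 0 1 : Fin (N + 1) → K) (P l)
  have h6 : aeval (Pi.single 0 1 : Fin (N + 1) → K) (P l) = 1 := by
    have h7 := h.base_pt l
    rw [← MvPolynomial.coe_aeval_eq_eval] at h7
    exact h7
  rw [h6, map_one] at h5
  rw [one_pow, sub_eq_zero]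
  exact h5.symm

theorem bp_sum (L : Type) [Field L] [Algebra K L] (x : Fin (n + 1) → L) (i : Fin s) :
    ∑ k, bp L N c (hI N c k) * aeval x (A i k) = aeval x (A i 0) := by
  rw [Finset.sum_eq_single 0]
  · rw [bp_h, Pi.single_eq_same, one_mul]
  · intro k _ hk
    rw [bp_h, Pi.single_eq_of_ne hk, zero_mul]
  · intro h
    exact absurd (Finset.mem_univ _) h

/-- the fibre of the base point -/
theorem mem_zero (h : Model A P) {L : Type} [Field L] [Algebra K L] {x : Fin (n + 1) → L}
    {y : Fin (N + c + 1) → L} (hy : y ≠ 0) (hyP : ∀ l, aeval y (coverForm P l) = 0)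
    (hw : ∀ k ≠ 0, y (hI N c k) = 0) {i : Fin s}
    (hx : ∑ k, y (hI N c k) * aeval x (A i k) = 0) : aeval x (A i 0) = 0 := by
  rw [Finset.sum_eq_single 0 (fun k _ hk => by rw [hw k hk, zero_mul])
    (fun h => absurd (Finset.mem_univ _) h)] at hx
  refine (mul_eq_zero.1 hx).resolve_left fun h0 => ?_
  apply base_ne h.deg_two hy hyP
  funext k
  by_cases hk : k = 0
  · rw [hk]
    exact h0
  · exact hw k hk

theorem hom_smul {L : Type} [Field L] [Algebra K L] (c' : L)
    (x : Fin (n + 1) → L) (y : Fin (N + c + 1) → L) (i : Fin s) {d : ℕ}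
    (hd : ∀ i k, (A i k).IsHomogeneous d) :
    ∑ k, y (hI N c k) * aeval (c' • x) (A i k) = c' ^ d * ∑ k, y (hI N c k) * aeval x (A i k) := by
  rw [Finset.mul_sum]
  refine Finset.sum_congr rfl fun k _ => ?_
  rw [aeval_scaleK (hd i k) c' x]
  ring

/-- **Hyperbolicity of the models.** -/
theorem hyp_model (h : Model A P) (σ : K →+* ℂ) :
    Hyperbolic₂ σ (modelEqs A P) ↔ Hyperbolic σ fun i => A i 0 := by
  let _ : Algebra K ℂ := σ.toAlgebra
  have hev : ∀ {τ : Type} (x : τ → ℂ) (p : MvPolynomial τ K), eval₂ σ x p = aeval x p :=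
    fun x p => rfl
  obtain ⟨d, hd⟩ := h.deg
  constructor
  · intro hY f hf hf0 hfX z w
    refine (hY f (fun _ => bp ℂ N c) hf (differentiable_const _) hf0 (fun _ => bp_ne ℂ) ?_ z w).1
    intro z i
    rw [hev]
    rcases i with i | l
    · rw [eval_inl, bp_sum, ← hev]
      exact hfX z i
    · rw [eval_inr]
      exact bp_mem h ℂ l
  · intro hX f g hf hg hf0 hg0 hfg
    have hfg1 : ∀ z i, ∑ k, g z (hI N c k) * aeval (f z) (A i k) = 0 := fun z i => by
      have := hfg z (Sum.inl i)
      rwa [hev, eval_inl] at this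
    have hfg2 : ∀ z l, aeval (g z) (coverForm P l) = 0 := fun z l => by
      have := hfg z (Sum.inr l)
      rwa [hev, eval_inr] at this
    have hgc : ∀ z w, ∃ c : ℂ, g z = c • g w := h.base_hyp σ g hg hg0 fun z l => by
      rw [hev]
      exact hfg2 z l
    have hfg3 : ∀ z i, ∑ k, g 0 (hI N c k) * aeval (f z) (A i k) = 0 := by
      intro z i
      obtain ⟨b, hb⟩ := hgc 0 z
      rw [hb]
      simp only [Pi.smul_apply, smul_eq_mul, mul_assoc, ← Finset.mul_sum]
      rw [hfg1, mul_zero]
    have hfc : ∀ z w, ∃ c : ℂ, f z = c • f w := by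
      by_cases hw : ∃ k ≠ 0, g 0 (hI N c k) ≠ 0
      · refine const_of_finite hf.continuous hf0 (h.fib ℂ (g 0) (hfg2 0) hw) fun z i => ?_
        obtain ⟨b, hb⟩ := Projectivization.exists_smul_eq_mk_rep ℂ (f z) (hf0 z)
        rw [← hb]
        have := hom_smul (b : ℂ) (f z) (g 0) i hd
        rw [hfg3, mul_zero] at this
        exact this
      · push Not at hw
        refine hX f hf hf0 fun z i => ?_
        rw [hev]
        exact mem_zero h (hg0 0) (hfg2 0) hw (hfg3 z i)
    exact fun z w => ⟨hfc z w, hgc z w⟩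

/-- rational points of `X` and of the models -/
theorem fin_down (h : Model A P) (L : Type) [Field L] [Algebra K L]
    (hY : (points₂ L (modelEqs A P)).Finite) : (points L fun i => A i 0).Finite := by
  obtain ⟨d, hd⟩ := h.deg
  let φ : ℙ L (Fin (n + 1) → L) → ℙ L (Fin (n + 1) → L) × ℙ L (Fin (N + c + 1) → L) := fun Q =>
    (Q, Projectivization.mk L (bp L N c) (bp_ne L))
  have hφ : Function.Injective φ := fun Q Q' hQ => congrArg Prod.fst hQ
  apply Set.Finite.of_finite_image (f := φ) (hY.subset ?_) hφ.injOn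
  rintro _ ⟨Q, hQ, rfl⟩ i
  obtain ⟨b, hb⟩ := Projectivization.exists_smul_eq_mk_rep L (bp L N c) (bp_ne L)
  change aeval (Sum.elim Q.rep (Projectivization.mk L (bp L N c) (bp_ne L)).rep) _ = 0
  rw [← hb]
  rcases i with i | l
  · rw [eval_inl]
    have h1 : ∀ k, ((b : Lˣ) • bp L N c) (hI N c k) = (b : L) * bp L N c (hI N c k) :=
      fun k => rfl
    simp only [h1, mul_assoc, ← Finset.mul_sum, bp_sum]
    have h2 : aeval Q.rep (A i 0) = 0 := hQ i
    rw [h2, mul_zero]
  · rw [eval_inr]
    have h1 : ((b : Lˣ) • bp L N c) = (b : L) • bp L N c := rfl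
    rw [h1, aeval_scaleK (Pool.Agent.U207.QK.cover_hom h.deg_two l), bp_mem h L l, mul_zero]

theorem fin_up (h : Model A P) (L : Type) [Field L] [Algebra K L]
    (hV : (points L (coverForm P)).Finite) (hX : (points L fun i => A i 0).Finite) :
    (points₂ L (modelEqs A P)).Finite := by
  apply Set.Finite.of_finite_fibers Prod.snd
  · refine hV.subset ?_
    rintro _ ⟨Q, hQ, rfl⟩ l
    have := hQ (Sum.inr l)
    rwa [eval_inr] at this
  · rintro R ⟨Q, hQ, rfl⟩
    have hR : ∀ l, aeval Q.2.rep (coverForm P l) = 0 := fun l => by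
      have := hQ (Sum.inr l)
      rwa [eval_inr] at this
    have hfin : {Q' : ℙ L (Fin (n + 1) → L) |
        ∀ i, ∑ k, Q.2.rep (hI N c k) * aeval Q'.rep (A i k) = 0}.Finite := by
      by_cases hw : ∃ k ≠ 0, Q.2.rep (hI N c k) ≠ 0
      · exact h.fib L Q.2.rep hR hw
      · push Not at hw
        refine hX.subset fun Q' hQ' i => ?_
        exact mem_zero h Q.2.rep_nonzero hR hw (hQ' i)
    refine Set.Finite.subset (hfin.image fun Q' => (Q', Q.2)) ?_
    rintro ⟨Q', R'⟩ ⟨hQ', hR'⟩
    have hR'' : R' = Q.2 := hR'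
    subst hR''
    refine ⟨Q', fun i => ?_, rfl⟩
    have := hQ' (Sum.inl i)
    rwa [eval_inl] at this

/-- the base as a model -/
theorem base_model (h : Model A P) :
    Model (n := 0) (s := 0) (fun i => i.elim0) P where
  deg := ⟨0, fun i => i.elim0⟩
  deg_two := h.deg_two
  base := h.base
  base_hyp := h.base_hyp
  base_pt := h.base_pt
  smooth := by
    intro Ω _ _ x y hx hy hxy
    rw [Fintype.linearIndependent_iff]
    intro ν hν
    have h5 := h.base Ω y hy fun l => by
      have := hxy (Sum.inr l)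
      rwa [eval_inr] at this
    rw [Fintype.linearIndependent_iff] at h5
    have h6 := h5 (fun l => ν (Sum.inr l)) (by
      funext z
      have h2 := congrFun hν (Sum.inr z)
      simp only [Finset.sum_apply, Pi.smul_apply, smul_eq_mul, Pi.zero_apply] at h2 ⊢
      simpa only [Fintype.sum_sum_type, pder_rr, Finset.univ_eq_empty, Finset.sum_empty,
        zero_add] using h2)
    rintro (i | l)
    · exact i.elim0
    · exact h6 l
  fib := by
    intro L _ _ y _ _
    refine Set.Subsingleton.finite ?_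
    intro Q _ Q' _
    rw [← Q.mk_rep, ← Q'.mk_rep, Projectivization.mk_eq_mk_iff']
    have h0 : ∀ j : Fin (0 + 1), j = 0 := fun j => Fin.ext (by omega)
    have h1 : Q'.rep 0 ≠ 0 := by
      intro h2
      apply Q'.rep_nonzero
      funext j
      rw [h0 j]
      exact h2
    refine ⟨Q.rep 0 / Q'.rep 0, funext fun j => ?_⟩
    rw [h0 j, Pi.smul_apply, smul_eq_mul, div_mul_cancel₀ _ h1]

theorem base_hyp₂ (h : Model A P) (σ : K →+* ℂ) :
    Hyperbolic₂ σ (modelEqs (n := 0) (s := 0) (fun i => i.elim0) P) := by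
  rw [hyp_model (base_model h) σ]
  intro f _ hf0 _ z w
  have h0 : ∀ j : Fin (0 + 1), j = 0 := fun j => Fin.ext (by omega)
  have h1 : f w 0 ≠ 0 := by
    intro h2
    apply hf0 w
    funext j
    rw [h0 j]
    exact h2
  refine ⟨f z 0 / f w 0, funext fun j => ?_⟩
  rw [h0 j, Pi.smul_apply, smul_eq_mul, div_mul_cancel₀ _ h1]

theorem base_fin (L : Type) [Field L] [Algebra K L]
    (hY : (points₂ L (modelEqs (n := 0) (s := 0) (fun i => i.elim0) P)).Finite) :
    (points L (coverForm P)).Finite := by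
  let φ : ℙ L (Fin (N + c + 1) → L) → ℙ L (Fin (0 + 1) → L) × ℙ L (Fin (N + c + 1) → L) := fun Q =>
    (Projectivization.mk L (fun _ => 1) (fun h => one_ne_zero (congrFun h 0)), Q)
  have hφ : Function.Injective φ := fun Q Q' hQ => congrArg Prod.snd hQ
  apply Set.Finite.of_finite_image (f := φ) (hY.subset ?_) hφ.injOn
  rintro _ ⟨Q, hQ, rfl⟩ i
  rcases i with i | l
  · exact i.elim0
  · rw [eval_inr]
    exact hQ l

end model

end Pool.Agent.U207.SM
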