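import Pool.Agent.U207.SM.Smo

/-!
Project SM (helper207), part C: jets in the fibres, for algebraically independent coefficients.
-/

set_option autoImplicit false

namespace Pool.Agent.U207.SM

open MvPolynomial

section span

variable {Ω : Type} [Field Ω] {n d ρ : ℕ}

/-- the value of a functional on jets -/
noncomputable def lam (c : Fin ρ → Ω) (f : PowerSeries Ω) : Ω := ∑ r : Fin ρ, c r * PowerSeries.coeff (r : ℕ) f

theorem lam_add (c : Fin ρ → Ω) (f g : PowerSeries Ω) : lam c (f + g) = lam c f + lam c g := by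
  unfold lam
  simp only [map_add, mul_add, Finset.sum_add_distrib]

theorem lam_sum (c : Fin ρ → Ω) {ι : Type} (s : Finset ι) (f : ι → PowerSeries Ω) :
    lam c (∑ i ∈ s, f i) = ∑ i ∈ s, lam c (f i) := by
  unfold lam
  simp only [map_sum, Finset.mul_sum]
  rw [Finset.sum_comm]

theorem lam_C (c : Fin ρ → Ω) (x : Ω) (f : PowerSeries Ω) :
    lam c (PowerSeries.C x * f) = x * lam c f := by
  unfold lam
  simp only [PowerSeries.coeff_C_mul, Finset.mul_sum]
  refine Finset.sum_congr rfl fun r _ => ?_
  ring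

theorem lam_mul (c : Fin ρ → Ω) (f g : PowerSeries Ω) :
    lam c (f * g) = ∑ q : Fin ρ, PowerSeries.coeff (q : ℕ) g * lam c (PowerSeries.X ^ (q : ℕ) * f) := by
  classical
  unfold lam
  simp only [Finset.mul_sum]
  rw [Finset.sum_comm]
  refine Finset.sum_congr rfl fun r _ => ?_
  rw [mul_comm f g, PowerSeries.coeff_mul, Finset.Nat.sum_antidiagonal_eq_sum_range_succ
    (fun x y => PowerSeries.coeff x g * PowerSeries.coeff y f), Finset.mul_sum]
  have h1 : ∀ q : Fin ρ, PowerSeries.coeff (q : ℕ) g *
      (c r * PowerSeries.coeff (r : ℕ) (PowerSeries.X ^ (q : ℕ) * f)) =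
      if (q : ℕ) ∈ Finset.range (r + 1) then
        c r * (PowerSeries.coeff (q : ℕ) g * PowerSeries.coeff ((r : ℕ) - q) f) else 0 := by
    intro q
    rw [PowerSeries.coeff_X_pow_mul']
    by_cases hq : (q : ℕ) ≤ r
    · rw [if_pos hq, if_pos (Finset.mem_range.2 (by omega))]
      ring
    · rw [if_neg hq, if_neg (fun h => hq (by
        have := Finset.mem_range.1 h
        omega))]
      ring
  rw [Finset.sum_congr rfl fun q _ => h1 q]
  rw [Fin.sum_univ_eq_sum_range (fun q => if q ∈ Finset.range (r + 1) then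
    c r * (PowerSeries.coeff q g * PowerSeries.coeff ((r : ℕ) - q) f) else 0) ρ]
  rw [Finset.sum_ite_mem, Finset.inter_eq_right.2 (Finset.range_subset_range.2 (by omega))]

/-- monomials of degree `d` in nonconstant jets of order less than `ρ ≤ d + 1` -/
theorem span_jets (hρ : ρ ≤ d + 1) {H : Fin (n + 1) → ℕ → Ω} {p q : Fin (n + 1)}
    (hp : H p 0 ≠ 0) (hpq : H p 0 * H q 1 ≠ H q 0 * H p 1) (c : Fin ρ → Ω)
    (h : ∀ α : Fin d → Fin (n + 1), lam c (∏ t, PowerSeries.mk (H (α t))) = 0) : c = 0 := by
  classical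
  have hprod : ∀ L : Fin d → Fin (n + 1) → Ω,
      lam c (∏ t, ∑ j, PowerSeries.C (L t j) * PowerSeries.mk (H j)) = 0 := by
    intro L
    rw [Finset.prod_univ_sum, lam_sum]
    refine Finset.sum_eq_zero fun α _ => ?_
    rw [Finset.prod_mul_distrib, ← map_prod, lam_C, h, mul_zero]
  by_contra hc
  have hne : (Finset.univ.filter fun r => c r ≠ 0).Nonempty := by
    obtain ⟨r, hr⟩ := Function.ne_iff.1 hc
    exact ⟨r, by simpa using hr⟩
  obtain ⟨l, hl, hmax⟩ := Finset.exists_max_image _ (fun r : Fin ρ => (r : ℕ)) hne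
  rw [Finset.mem_filter] at hl
  have hlc := hl.2
  have hbig : ∀ r : Fin ρ, (l : ℕ) < r → c r = 0 := by
    intro r hr
    by_contra h0
    have := hmax r (by simpa using h0)
    omega
  have hld : (l : ℕ) ≤ d := by
    have := l.2
    omega
  set Λ : PowerSeries Ω := PowerSeries.C (H p 0) * PowerSeries.mk (H q) -
    PowerSeries.C (H q 0) * PowerSeries.mk (H p) with hΛ
  have h0 : PowerSeries.coeff 0 Λ = 0 := by
    rw [hΛ, map_sub, PowerSeries.coeff_C_mul, PowerSeries.coeff_C_mul, PowerSeries.coeff_mk,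
      PowerSeries.coeff_mk]
    ring
  have h1 : PowerSeries.coeff 1 Λ ≠ 0 := by
    rw [hΛ, map_sub, PowerSeries.coeff_C_mul, PowerSeries.coeff_C_mul, PowerSeries.coeff_mk,
      PowerSeries.coeff_mk]
    exact sub_ne_zero.2 hpq
  obtain ⟨Λ', hΛ'⟩ : PowerSeries.X ∣ Λ := by
    rw [PowerSeries.X_dvd_iff]
    rw [← PowerSeries.coeff_zero_eq_constantCoeff_apply]
    exact h0
  have h2 : PowerSeries.constantCoeff Λ' ≠ 0 := by
    rw [hΛ', PowerSeries.coeff_succ_X_mul, PowerSeries.coeff_zero_eq_constantCoeff_apply] at h1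
    exact h1
  let L : Fin d → Fin (n + 1) → Ω := fun t j =>
    if (t : ℕ) < l then (if j = q then H p 0 else 0) - (if j = p then H q 0 else 0)
    else if j = p then 1 else 0
  have hL : ∀ t : Fin d, ∑ j, PowerSeries.C (L t j) * PowerSeries.mk (H j) =
      (fun t : ℕ => if t < (l : ℕ) then Λ else PowerSeries.mk (H p)) t := by
    intro t
    simp only [L]
    split_ifs with ht
    · simp only [map_sub, sub_mul, Finset.sum_sub_distrib]
      rw [Finset.sum_eq_single q, Finset.sum_eq_single p, if_pos rfl, if_pos rfl]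
      · intro j _ hj
        rw [if_neg hj, map_zero, zero_mul]
      · intro h
        exact absurd (Finset.mem_univ _) h
      · intro j _ hj
        rw [if_neg hj, map_zero, zero_mul]
      · intro h
        exact absurd (Finset.mem_univ _) h
    · rw [Finset.sum_eq_single p, if_pos rfl, map_one, one_mul]
      · intro j _ hj
        rw [if_neg hj, map_zero, zero_mul]
      · intro h
        exact absurd (Finset.mem_univ _) h
  have h3 := hprod L
  rw [Finset.prod_congr rfl fun t _ => hL t, Fin.prod_univ_eq_prod_range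
    (fun t : ℕ => if t < (l : ℕ) then Λ else PowerSeries.mk (H p)) d,
    ← Finset.prod_range_mul_prod_Ico _ hld] at h3
  rw [Finset.prod_congr rfl (g := fun _ => Λ) (fun t ht => if_pos (Finset.mem_range.1 ht)),
    Finset.prod_congr rfl (g := fun _ => PowerSeries.mk (H p)) (fun t ht => if_neg (by
      have := (Finset.mem_Ico.1 ht).1
      omega)), Finset.prod_const, Finset.prod_const, Finset.card_range, Nat.card_Ico, hΛ',
    mul_pow, mul_assoc] at h3
  set u := Λ' ^ (l : ℕ) * PowerSeries.mk (H p) ^ (d - (l : ℕ)) with hu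
  have hu0 : PowerSeries.constantCoeff u ≠ 0 := by
    rw [hu, map_mul, map_pow, map_pow]
    refine mul_ne_zero (pow_ne_zero _ h2) (pow_ne_zero _ ?_)
    rw [← PowerSeries.coeff_zero_eq_constantCoeff_apply, PowerSeries.coeff_mk]
    exact hp
  unfold lam at h3
  rw [Finset.sum_eq_single l] at h3
  · rw [PowerSeries.coeff_X_pow_mul', if_pos le_rfl, Nat.sub_self,
      PowerSeries.coeff_zero_eq_constantCoeff_apply] at h3
    exact mul_ne_zero hlc hu0 h3
  · intro r _ hr
    rcases lt_or_gt_of_ne (fun h => hr (Fin.ext h) : (r : ℕ) ≠ l) with hlt | hgt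
    · rw [PowerSeries.coeff_X_pow_mul', if_neg (by omega), mul_zero]
    · rw [hbig r hgt, zero_mul]
  · intro h
    exact absurd (Finset.mem_univ _) h

end span

section jets

variable {K : Type} [Field K] {Ω : Type} [Field Ω] [Algebra K Ω]

/-- the derivation of the coefficients of a power series -/
noncomputable def dps (D : Derivation K Ω Ω) : Derivation K (PowerSeries Ω) (PowerSeries Ω) :=
  Derivation.mk'
    { toFun := fun f => PowerSeries.mk fun r => D (PowerSeries.coeff r f)
      map_add' := by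
        intro f g
        ext r
        simp
      map_smul' := by
        intro c f
        ext r
        simp }
    (by
      intro f g
      ext r
      simp only [LinearMap.coe_mk, AddHom.coe_mk, PowerSeries.coeff_mk, PowerSeries.coeff_mul,
        map_sum, Derivation.leibniz, smul_eq_mul, map_add, Finset.sum_add_distrib]
      congr 1
      exact Finset.Nat.sum_antidiagonal_swap (n := r)
        (f := fun x => PowerSeries.coeff x.1 g * D (PowerSeries.coeff x.2 f)))

theorem dps_coeff (D : Derivation K Ω Ω) (f : PowerSeries Ω) (r : ℕ) :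
    PowerSeries.coeff r (dps D f) = D (PowerSeries.coeff r f) := by
  change PowerSeries.coeff r (PowerSeries.mk fun r => D (PowerSeries.coeff r f)) = _
  rw [PowerSeries.coeff_mk]

theorem dps_C (D : Derivation K Ω Ω) (x : Ω) : dps D (PowerSeries.C x) = PowerSeries.C (D x) := by
  ext r
  rw [dps_coeff, PowerSeries.coeff_C, PowerSeries.coeff_C]
  split_ifs
  · rfl
  · exact map_zero D

variable [CharZero K] {n N s d ρ : ℕ} {g : Fin s → MvPolynomial (Fin (n + 1)) K}
  {k0 : Fin (N + 1)} {a : Par n N s d → Ω}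

omit [CharZero K] in
theorem adps_single {D : Derivation K Ω Ω} {i0 : Fin s} {k1 : Fin (N + 1)} (hk1 : k1 ≠ k0)
    {α0 : Wd n d} (hD : ∀ p, D (a p) = if p = (i0, k1, α0) then 1 else 0)
    (h : Fin (n + 1) → PowerSeries Ω) (i : Fin s) (k : Fin (N + 1)) :
    ad (dps D) k0 (fun p => PowerSeries.C (a p)) h i k =
      if i = i0 ∧ k = k1 then aeval h (mo K α0) else 0 := by
  classical
  unfold ad
  by_cases hik : i = i0 ∧ k = k1
  · obtain ⟨rfl, rfl⟩ := hik
    rw [if_neg hk1, if_pos ⟨rfl, rfl⟩]
    rw [Finset.sum_eq_single α0]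
    · rw [dps_C, hD, if_pos rfl, map_one, one_mul]
    · intro α _ hα
      rw [dps_C, hD, if_neg (fun h => hα (by simpa using h)), map_zero, zero_mul]
    · intro h
      exact absurd (Finset.mem_univ _) h
  · rw [if_neg hik]
    split_ifs with hk
    · rfl
    · refine Finset.sum_eq_zero fun α _ => ?_
      rw [dps_C, hD, if_neg (fun h => hik ⟨by simpa using congrArg (fun p => p.1) h,
        by simpa using congrArg (fun p => p.2.1) h⟩), map_zero, zero_mul]

/-- **Jets in the fibres are constant.** -/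
theorem gen_jets0 (ha : AlgebraicIndependent K a) (hρ : ρ ≤ d + 1)
    (hs : (n + 1) * ρ + (N + 1) < s * ρ) {H : Fin (n + 1) → ℕ → Ω} {w : Fin (N + 1) → Ω}
    (h4 : ∀ i, ∀ r < ρ, PowerSeries.coeff r (fv g k0 (fun p => PowerSeries.C (a p))
      (fun j => PowerSeries.mk (H j)) (fun k => PowerSeries.C (w k)) i) = 0)
    {k1 : Fin (N + 1)} (hk1 : k1 ≠ k0) (hw : w k1 ≠ 0) {p q : Fin (n + 1)} (hp : H p 0 ≠ 0) :
    H p 0 * H q 1 = H q 0 * H p 1 := by
  classical
  by_contra hpq
  set η : Fin (n + 1) → PowerSeries Ω := fun j => PowerSeries.mk (H j) with hη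
  set A : Par n N s d → PowerSeries Ω := fun p => PowerSeries.C (a p) with hA
  set W : Fin (N + 1) → PowerSeries Ω := fun k => PowerSeries.C (w k) with hW
  let Ψ : (Fin s × Fin ρ → Ω) →ₗ[Ω] ((Fin (n + 1) × Fin ρ) ⊕ Fin (N + 1) → Ω) :=
    { toFun := fun c => Sum.elim
        (fun z => ∑ i, lam (fun r => c (i, r)) (PowerSeries.X ^ (z.2 : ℕ) *
          ∑ k, W k * avd g k0 A η i k z.1))
        (fun k => ∑ i, lam (fun r => c (i, r)) (av g k0 A η i k))
      map_add' := by
        intro c c'
        funext z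
        rcases z with z | z
        · simp [lam, add_mul, Finset.sum_add_distrib]
        · simp [lam, add_mul, Finset.sum_add_distrib]
      map_smul' := by
        intro c c'
        funext z
        rcases z with z | z
        · simp [lam, Finset.mul_sum, mul_assoc]
        · simp [lam, Finset.mul_sum, mul_assoc] }
  have hlt : Module.finrank Ω ((Fin (n + 1) × Fin ρ) ⊕ Fin (N + 1) → Ω) <
      Module.finrank Ω (Fin s × Fin ρ → Ω) := by
    rw [Module.finrank_fintype_fun_eq_card, Module.finrank_fintype_fun_eq_card]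
    simp only [Fintype.card_sum, Fintype.card_prod, Fintype.card_fin]
    exact hs
  have hker := LinearMap.ker_ne_bot_of_finrank_lt (f := Ψ) hlt
  obtain ⟨c, hc, hc0⟩ := (Submodule.ne_bot_iff _).1 hker
  rw [LinearMap.mem_ker] at hc
  have hA1 : ∀ j (q : Fin ρ), ∑ i, lam (fun r => c (i, r)) (PowerSeries.X ^ (q : ℕ) *
      ∑ k, W k * avd g k0 A η i k j) = 0 := fun j q => congrFun hc (Sum.inl (j, q))
  have hA2 : ∀ k, ∑ i, lam (fun r => c (i, r)) (av g k0 A η i k) = 0 := fun k =>
    congrFun hc (Sum.inr k)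
  apply hc0
  funext z
  obtain ⟨i0, r0⟩ := z
  have hkey : ∀ α : Wd n d, lam (fun r => c (i0, r)) (∏ t, PowerSeries.mk (H (α t))) = 0 := by
    intro α
    obtain ⟨D, hD⟩ := exists_dir ha (i0, k1, α)
    have e0 : ∑ i, lam (fun r => c (i, r)) (dps D (fv g k0 A η W i)) = 0 := by
      refine Finset.sum_eq_zero fun i _ => ?_
      unfold lam
      refine Finset.sum_eq_zero fun r _ => ?_
      rw [dps_coeff, h4 i r r.2, map_zero, mul_zero]
    simp only [der_fv, lam_add, Finset.sum_add_distrib] at e0
    have e1 : ∑ i, lam (fun r => c (i, r)) (∑ k, dps D (W k) * av g k0 A η i k) = 0 := by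
      have : ∀ i, lam (fun r => c (i, r)) (∑ k, dps D (W k) * av g k0 A η i k) =
          ∑ k, D (w k) * lam (fun r => c (i, r)) (av g k0 A η i k) := by
        intro i
        rw [lam_sum]
        refine Finset.sum_congr rfl fun k _ => ?_
        rw [hW, dps_C, lam_C]
      rw [Finset.sum_congr rfl fun i _ => this i, Finset.sum_comm]
      refine Finset.sum_eq_zero fun k _ => ?_
      rw [← Finset.mul_sum, hA2, mul_zero]
    have e2 : ∑ i, lam (fun r => c (i, r)) (∑ j, (∑ k, W k * avd g k0 A η i k j) *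
        dps D (η j)) = 0 := by
      have : ∀ i, lam (fun r => c (i, r)) (∑ j, (∑ k, W k * avd g k0 A η i k j) *
          dps D (η j)) = ∑ j, ∑ q : Fin ρ, D (H j q) * lam (fun r => c (i, r))
            (PowerSeries.X ^ (q : ℕ) * ∑ k, W k * avd g k0 A η i k j) := by
        intro i
        rw [lam_sum]
        refine Finset.sum_congr rfl fun j _ => ?_
        rw [lam_mul]
        refine Finset.sum_congr rfl fun q _ => ?_
        rw [dps_coeff, hη, PowerSeries.coeff_mk]
      rw [Finset.sum_congr rfl fun i _ => this i, Finset.sum_comm]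
      refine Finset.sum_eq_zero fun j _ => ?_
      rw [Finset.sum_comm]
      refine Finset.sum_eq_zero fun q _ => ?_
      rw [← Finset.mul_sum, hA1, mul_zero]
    have e3 : ∑ i, lam (fun r => c (i, r)) (∑ k, W k * ad (dps D) k0 A η i k) =
        w k1 * lam (fun r => c (i0, r)) (aeval η (mo K α)) := by
      rw [Finset.sum_eq_single i0]
      · rw [← lam_C]
        congr 1
        rw [Finset.sum_eq_single k1]
        · rw [adps_single hk1 hD, if_pos ⟨rfl, rfl⟩]
        · intro k _ hk
          rw [adps_single hk1 hD, if_neg (fun h => hk h.2), mul_zero]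
        · intro h
          exact absurd (Finset.mem_univ _) h
      · intro i _ hi
        have : ∑ k, W k * ad (dps D) k0 A η i k = 0 := by
          refine Finset.sum_eq_zero fun k _ => ?_
          rw [adps_single hk1 hD, if_neg (fun h => hi h.1), mul_zero]
        rw [this]
        unfold lam
        simp
      · intro h
        exact absurd (Finset.mem_univ _) h
    rw [e1, e2, e3, zero_add, zero_add, mo_aeval] at e0
    exact (mul_eq_zero.1 e0).resolve_left hw
  exact congrFun (span_jets hρ hp hpq (fun r => c (i0, r)) hkey) r0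

/-- **Jets in the fibres are constant.** -/
theorem gen_jets (ha : AlgebraicIndependent K a) (hρ : ρ ≤ d + 1)
    (hs : (n + 1) * ρ + (N + 1) < s * ρ) {H : Fin (n + 1) → ℕ → Ω} {w : Fin (N + 1) → Ω}
    (h4 : ∀ i, ∀ r < ρ, PowerSeries.coeff r (fv g k0 (fun p => PowerSeries.C (a p))
      (fun j => PowerSeries.mk (H j)) (fun k => PowerSeries.C (w k)) i) = 0)
    {k1 : Fin (N + 1)} (hk1 : k1 ≠ k0) (hw : w k1 ≠ 0) (p q : Fin (n + 1)) :
    H p 0 * H q 1 = H q 0 * H p 1 := by
  by_cases hp : H p 0 = 0
  · by_cases hq : H q 0 = 0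
    · rw [hp, hq]
      ring
    · have := gen_jets0 ha hρ hs h4 hk1 hw (p := q) (q := p) hq
      rw [this]
  · exact gen_jets0 ha hρ hs h4 hk1 hw hp

end jets

end Pool.Agent.U207.SM
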