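import Pool.Agent.U207.SM.Bas
import Pool.Agent.U207.SM.Fib

/-!
Project SM (helper207), part H: the smooth models.
-/

set_option autoImplicit false

namespace Pool.Agent.U207.SM

open MvPolynomial
open scoped LinearAlgebra.Projectivization
open Pool.Agent.U207.QC (hI xI hI_inj xI_inj hI_ne_xI idx_cases)
open Pool.Agent.U207.QK (coverForm SmoothCover base_ne)

section eqs

variable {K : Type} [Field K] {n N s c d : ℕ} {Ω : Type} [Field Ω] [Algebra K Ω]
  {A : Fin s → Fin (N + 1) → MvPolynomial (Fin (n + 1)) K}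
  {P : Fin c → MvPolynomial (Fin (N + 1)) K}

theorem eval_inl (x : Fin (n + 1) → Ω) (y : Fin (N + c + 1) → Ω) (i : Fin s) :
    aeval (Sum.elim x y) (modelEqs A P (Sum.inl i)) = ∑ k, y (hI N c k) * aeval x (A i k) := by
  unfold modelEqs
  rw [Sum.elim_inl, map_sum]
  refine Finset.sum_congr rfl fun k _ => ?_
  rw [map_mul, aeval_X, Sum.elim_inr, aeval_rename, Sum.elim_comp_inl]

theorem eval_inr (x : Fin (n + 1) → Ω) (y : Fin (N + c + 1) → Ω) (l : Fin c) :
    aeval (Sum.elim x y) (modelEqs A P (Sum.inr l)) = aeval y (coverForm P l) := by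
  unfold modelEqs
  rw [Sum.elim_inr, aeval_rename, Sum.elim_comp_inr]

theorem pder_ll (x : Fin (n + 1) → Ω) (y : Fin (N + c + 1) → Ω) (i : Fin s) (j : Fin (n + 1)) :
    aeval (Sum.elim x y) (pderiv (Sum.inl j) (modelEqs A P (Sum.inl i))) =
      ∑ k, y (hI N c k) * aeval x (pderiv j (A i k)) := by
  unfold modelEqs
  rw [Sum.elim_inl, map_sum, map_sum]
  refine Finset.sum_congr rfl fun k _ => ?_
  rw [Derivation.leibniz, pderiv_X_of_ne (by simp), smul_zero, add_zero,
    pderiv_rename Sum.inl_injective, smul_eq_mul, map_mul, aeval_X, Sum.elim_inr, aeval_rename,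
    Sum.elim_comp_inl]

theorem pder_lr (x : Fin (n + 1) → Ω) (y : Fin (N + c + 1) → Ω) (i : Fin s)
    (z : Fin (N + c + 1)) :
    aeval (Sum.elim x y) (pderiv (Sum.inr z) (modelEqs A P (Sum.inl i))) =
      ∑ k, (if hI N c k = z then 1 else 0) * aeval x (A i k) := by
  classical
  unfold modelEqs
  rw [Sum.elim_inl, map_sum, map_sum]
  refine Finset.sum_congr rfl fun k _ => ?_
  have h1 : pderiv (Sum.inr z : Fin (n + 1) ⊕ Fin (N + c + 1))
      (rename Sum.inl (A i k) : MvPolynomial (Fin (n + 1) ⊕ Fin (N + c + 1)) K) = 0 := by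
    apply pderiv_eq_zero_of_notMem_vars
    intro hmem
    obtain ⟨j, -, hj⟩ := Finset.mem_image.1 (vars_rename Sum.inl _ hmem)
    exact Sum.inl_ne_inr hj
  rw [Derivation.leibniz, h1, smul_zero, zero_add, pderiv_X, smul_eq_mul, mul_comm, map_mul,
    aeval_rename, Sum.elim_comp_inl, Pi.single_apply]
  congr 1
  by_cases hz : hI N c k = z
  · rw [if_pos hz, if_pos (by rw [hz]), map_one]
  · rw [if_neg hz, if_neg (fun h => hz (Sum.inr_injective h)), map_zero]

theorem pder_rl (x : Fin (n + 1) → Ω) (y : Fin (N + c + 1) → Ω) (l : Fin c) (j : Fin (n + 1)) :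
    aeval (Sum.elim x y) (pderiv (Sum.inl j) (modelEqs A P (Sum.inr l))) = 0 := by
  unfold modelEqs
  rw [Sum.elim_inr]
  have h1 : pderiv (Sum.inl j : Fin (n + 1) ⊕ Fin (N + c + 1))
      (rename Sum.inr (coverForm P l) : MvPolynomial (Fin (n + 1) ⊕ Fin (N + c + 1)) K) = 0 := by
    apply pderiv_eq_zero_of_notMem_vars
    intro hmem
    obtain ⟨j, -, hj⟩ := Finset.mem_image.1 (vars_rename Sum.inr _ hmem)
    exact Sum.inr_ne_inl hj
  rw [h1, map_zero]

theorem pder_rr (x : Fin (n + 1) → Ω) (y : Fin (N + c + 1) → Ω) (l : Fin c)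
    (z : Fin (N + c + 1)) :
    aeval (Sum.elim x y) (pderiv (Sum.inr z) (modelEqs A P (Sum.inr l))) =
      aeval y (pderiv z (coverForm P l)) := by
  unfold modelEqs
  rw [Sum.elim_inr, pderiv_rename Sum.inr_injective, aeval_rename, Sum.elim_comp_inr]

/-- the gradients of the equations of the cover -/
theorem cov_h (y : Fin (N + c + 1) → Ω) (l : Fin c) (k : Fin (N + 1)) :
    aeval y (pderiv (hI N c k) (coverForm P l)) = - aeval (y ∘ hI N c) (pderiv k (P l)) := by
  unfold coverForm
  rw [map_sub, pderiv_rename hI_inj, Derivation.leibniz_pow,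
    pderiv_X_of_ne fun h => hI_ne_xI k l h.symm, smul_zero, smul_zero, zero_sub, map_neg,
    aeval_rename]

theorem cov_x (y : Fin (N + c + 1) → Ω) (l l' : Fin c) :
    aeval y (pderiv (xI N c l') (coverForm P l)) = if l = l' then 2 * y (xI N c l') else 0 := by
  unfold coverForm
  have h3 : pderiv (xI N c l') (rename (hI N c) (P l)) = 0 := by
    apply pderiv_eq_zero_of_notMem_vars
    intro hmem
    obtain ⟨j, -, hj⟩ := Finset.mem_image.1 (vars_rename (hI N c) _ hmem)
    exact hI_ne_xI j l' hj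
  rw [map_sub, h3, sub_zero, Derivation.leibniz_pow]
  by_cases hi : l = l'
  · subst hi
    rw [if_pos rfl, pderiv_X_self]
    simp
  · rw [if_neg hi, pderiv_X_of_ne fun h => hi (xI_inj h)]
    simp

end eqs

section fam

variable {K : Type} [Field K] {n N s c d : ℕ}

/-- the forms `A_{ik}` -/
noncomputable def fam (g : Fin s → MvPolynomial (Fin (n + 1)) K) (a : Par n N s d → K) (i : Fin s)
    (k : Fin (N + 1)) : MvPolynomial (Fin (n + 1)) K :=
  if k = 0 then g i else ∑ α, C (a (i, k, α)) * mo K α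

theorem fam_zero (g : Fin s → MvPolynomial (Fin (n + 1)) K) (a : Par n N s d → K) (i : Fin s) :
    fam g a i 0 = g i := if_pos rfl

theorem fam_hom {g : Fin s → MvPolynomial (Fin (n + 1)) K} (hg : ∀ i, (g i).IsHomogeneous d)
    (a : Par n N s d → K) (i : Fin s) (k : Fin (N + 1)) : (fam g a i k).IsHomogeneous d := by
  unfold fam
  split_ifs
  · exact hg i
  · refine IsHomogeneous.sum _ _ _ fun α _ => ?_
    have := (isHomogeneous_C (Fin (n + 1)) (a (i, k, α))).mul (mo_hom (K := K) α)
    rwa [zero_add] at this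

variable {Ω : Type} [Field Ω] [Algebra K Ω]

theorem fam_av (g : Fin s → MvPolynomial (Fin (n + 1)) K) (a : Par n N s d → K)
    (x : Fin (n + 1) → Ω) (i : Fin s) (k : Fin (N + 1)) :
    aeval x (fam g a i k) = av g 0 (fun p => algebraMap K Ω (a p)) x i k := by
  unfold fam av
  split_ifs
  · rfl
  · rw [map_sum]
    refine Finset.sum_congr rfl fun α _ => ?_
    rw [map_mul, aeval_C]

theorem fam_avd (g : Fin s → MvPolynomial (Fin (n + 1)) K) (a : Par n N s d → K)
    (x : Fin (n + 1) → Ω) (i : Fin s) (k : Fin (N + 1)) (j : Fin (n + 1)) :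
    aeval x (pderiv j (fam g a i k)) = avd g 0 (fun p => algebraMap K Ω (a p)) x i k j := by
  unfold fam avd
  split_ifs
  · rfl
  · rw [map_sum, map_sum]
    refine Finset.sum_congr rfl fun α _ => ?_
    rw [pderiv_C_mul, map_mul, aeval_C]

end fam

/-- **The models.** -/
theorem exists_model {K : Type} [Field K] [CharZero K] {n N s c d : ℕ}
    {g : Fin s → MvPolynomial (Fin (n + 1)) K} (hg : ∀ i, (g i).IsHomogeneous d)
    {P : Fin c → MvPolynomial (Fin (N + 1)) K} (hP : ∀ l, (P l).IsHomogeneous 2)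
    (hsm : SmoothCover P) (hP1 : ∀ l, eval (Pi.single 0 1) (P l) = 1)
    (hyp : ∀ σ : K →+* ℂ, Hyperbolic σ (coverForm P)) (hN : s + (n + 1) < N) (hd : 3 ≤ d)
    (hs : (n + 1) * 4 + (N + 1) < s * 4) :
    ∃ A : Fin s → Fin (N + 1) → MvPolynomial (Fin (n + 1)) K, (∀ i, A i 0 = g i) ∧
      Model A P := by
  classical
  obtain ⟨a, ha⟩ := exists_coeffs (g := g) (k0 := 0) (P := P) (d := d) (ρ := 4) hP
    (fun l => by rw [hP1]; exact one_ne_zero) hN (by omega) hs
  refine ⟨fam g a, fam_zero g a, ⟨d, fam_hom hg a⟩, hP, hsm, hyp, hP1, ?_, ?_⟩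
  · intro Ω _ _ x y hx hy hxy
    have hch : CharZero Ω := charZero_of_injective_algebraMap (algebraMap K Ω).injective
    have hyP : ∀ l, aeval y (coverForm P l) = 0 := fun l => by
      rw [← eval_inr (A := fam g a) x]
      exact hxy (Sum.inr l)
    have hw : y ∘ hI N c ≠ 0 := base_ne hP hy hyP
    rw [Fintype.linearIndependent_iff]
    intro ν hν
    have hν' : ∀ z, ∑ i, ν i * aeval (Sum.elim x y) (pderiv z (modelEqs (fam g a) P i)) = 0 := by
      intro z
      have h1 := congrFun hν z
      simpa only [Finset.sum_apply, Pi.smul_apply, smul_eq_mul, Pi.zero_apply] using h1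
    simp only [Fintype.sum_sum_type] at hν'
    have h1 : (fun i => ν (Sum.inl i)) = 0 := by
      refine (ha Ω).1 x (y ∘ hI N c) (y ∘ xI N c) (fun i => ν (Sum.inl i))
        (fun l => ν (Sum.inr l)) hx hw ?_
      rintro (i | l | l | j | k)
      · change fv g 0 _ x (y ∘ hI N c) i = 0
        have h2 := hxy (Sum.inl i)
        rw [eval_inl] at h2
        unfold fv
        rw [← h2]
        refine Finset.sum_congr rfl fun k _ => ?_
        rw [fam_av]
        rfl
      · change (y ∘ xI N c) l ^ 2 - aeval (y ∘ hI N c) (P l) = 0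
        rw [← hyP l, Pool.Agent.U207.QK.aeval_cover]
        rfl
      · change ν (Sum.inr l) * y (xI N c l) = 0
        have h2 := hν' (Sum.inr (xI N c l))
        simp only [pder_lr, pder_rr, cov_x] at h2
        rw [Finset.sum_eq_zero (f := fun i => ν (Sum.inl i) * ∑ k,
          (if hI N c k = xI N c l then (1 : Ω) else 0) * aeval x (fam g a i k)) (fun i _ => by
            rw [Finset.sum_eq_zero, mul_zero]
            intro k _
            rw [if_neg (hI_ne_xI k l), zero_mul]), zero_add] at h2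
        rw [Finset.sum_eq_single l (fun l' _ hl' => by rw [if_neg hl', mul_zero])
          (fun h => absurd (Finset.mem_univ _) h), if_pos rfl] at h2
        have h4 : 2 * (ν (Sum.inr l) * y (xI N c l)) = 0 := by linear_combination h2
        exact (mul_eq_zero.1 h4).resolve_left two_ne_zero
      · change ∑ i, ν (Sum.inl i) * ∑ k, (y ∘ hI N c) k * avd g 0 _ x i k j = 0
        have h2 := hν' (Sum.inl j)
        simp only [pder_ll, pder_rl, mul_zero, Finset.sum_const_zero, add_zero, fam_avd] at h2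
        exact h2
      · change ∑ i, ν (Sum.inl i) * av g 0 _ x i k -
          ∑ l, ν (Sum.inr l) * aeval (y ∘ hI N c) (pderiv k (P l)) = 0
        have h2 := hν' (Sum.inr (hI N c k))
        simp only [pder_lr, pder_rr, cov_h, fam_av, mul_neg, Finset.sum_neg_distrib] at h2
        rw [← sub_eq_add_neg] at h2
        rw [← h2]
        congr 1
        refine Finset.sum_congr rfl fun i _ => ?_
        rw [Finset.sum_eq_single k (fun k' _ hk' => by
          rw [if_neg (fun h => hk' (hI_inj h)), zero_mul])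
          (fun h => absurd (Finset.mem_univ _) h), if_pos rfl, one_mul]
    have h3 : ∀ i, ν (Sum.inl i) = 0 := fun i => congrFun h1 i
    have h5 := hsm Ω y hy hyP
    rw [Fintype.linearIndependent_iff] at h5
    have h6 := h5 (fun l => ν (Sum.inr l)) (by
      funext z
      simp only [Finset.sum_apply, Pi.smul_apply, smul_eq_mul, Pi.zero_apply]
      have h2 := hν' (Sum.inr z)
      simpa only [h3, zero_mul, Finset.sum_const_zero, zero_add, pder_rr] using h2)
    rintro (i | l)
    · exact h3 i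
    · exact h6 l
  · intro L _ _ y _ hw
    have h1 := fib_finite (K := K) (g := g) (k0 := 0) (a := a) (ρ := 4) hg
      (fun Ω _ _ H w => (ha Ω).2 H w) (L := L) (w := y ∘ hI N c) hw
    refine h1.subset fun Q hQ i => ?_
    have h2 := hQ i
    unfold fv
    rw [← h2]
    refine Finset.sum_congr rfl fun k _ => ?_
    rw [fam_av]
    rfl

/-- **Models of projective varieties.** -/
theorem exists_model_of (K : Type) [Field K] [CharZero K] {n : ℕ} {ι : Type} [Finite ι]
    (F : ι → MvPolynomial (Fin (n + 1)) K) (hF : ∀ i, ∃ e, (F i).IsHomogeneous e) :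
    ∃ (N c s : ℕ) (A : Fin s → Fin (N + 1) → MvPolynomial (Fin (n + 1)) K)
      (P : Fin c → MvPolynomial (Fin (N + 1)) K), Model A P ∧
      ∀ (Ω : Type) [Field Ω] [Algebra K Ω] (x : Fin (n + 1) → Ω), x ≠ 0 →
        ((∀ i, aeval x (A i 0) = 0) ↔ ∀ i, aeval x (F i) = 0) := by
  classical
  have := Fintype.ofFinite ι
  choose e he using hF
  set d := max 3 (Finset.univ.sup e) with hd
  have hed : ∀ i, e i ≤ d := fun i =>
    le_trans (Finset.le_sup (f := e) (Finset.mem_univ i)) (le_max_right _ _)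
  have hd3 : 3 ≤ d := le_max_left _ _
  set M := Fintype.card (ι × Fin (n + 1)) with hM
  obtain ⟨N, c, P, hN, hP, hsm, hP1, hyp⟩ := exists_base K (M + 3 * n + 10)
  obtain ⟨s, hs⟩ : ∃ s, N = s + (n + 2) := ⟨N - (n + 2), by omega⟩
  obtain ⟨φ⟩ : Nonempty (ι × Fin (n + 1) ↪ Fin s) := by
    rw [Function.Embedding.nonempty_iff_card_le, Fintype.card_fin]
    omega
  let g : Fin s → MvPolynomial (Fin (n + 1)) K := fun t =>
    if h : ∃ z, φ z = t then F h.choose.1 * X h.choose.2 ^ (d - e h.choose.1) else 0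
  have hg : ∀ t, (g t).IsHomogeneous d := by
    intro t
    simp only [g]
    split_ifs with h
    · have h1 := (he h.choose.1).mul (isHomogeneous_X_pow (R := K) h.choose.2 (d - e h.choose.1))
      rwa [Nat.add_sub_cancel' (hed _)] at h1
    · exact isHomogeneous_zero _ _ _
  have hgφ : ∀ z, g (φ z) = F z.1 * X z.2 ^ (d - e z.1) := by
    intro z
    have h : ∃ z', φ z' = φ z := ⟨z, rfl⟩
    have h1 : h.choose = z := φ.injective h.choose_spec
    simp only [g]
    rw [dif_pos h, h1]
  obtain ⟨A, hA, hmod⟩ := exists_model hg hP hsm hP1 hyp (by omega) hd3 (by omega)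
  refine ⟨N, c, s, A, P, hmod, ?_⟩
  intro Ω _ _ x hx
  constructor
  · intro h i
    obtain ⟨j, hj⟩ := Function.ne_iff.1 hx
    have h1 := h (φ (i, j))
    rw [hA, hgφ, map_mul, map_pow, aeval_X] at h1
    exact (mul_eq_zero.1 h1).resolve_right (pow_ne_zero _ hj)
  · intro h t
    rw [hA]
    simp only [g]
    split_ifs with h1
    · rw [map_mul, h, zero_mul]
    · exact map_zero _

end Pool.Agent.U207.SM
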