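import Pool.Agent.U207.SM.Hyp
import Pool.Agent.N133.WZ

/-!
Project SM (helper207), part J: the Segre embedding.
-/

set_option autoImplicit false

namespace Pool.Agent.U207.SM

open MvPolynomial
open scoped LinearAlgebra.Projectivization
open Pool.Agent.U207.QK (aeval_scaleK)

variable {K : Type} [Field K] {n m M : ℕ} {ι : Type}

/-- bihomogeneous equations -/
def BiHom (E : ι → MvPolynomial (Fin (n + 1) ⊕ Fin (m + 1)) K) : Prop :=
  ∀ i, ∃ a b : ℕ, (E i).IsHomogeneous (a + b) ∧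
    ∀ (Ω : Type) [Field Ω] [Algebra K Ω] (s t : Ω) (x : Fin (n + 1) → Ω) (y : Fin (m + 1) → Ω),
      aeval (Sum.elim (s • x) (t • y)) (E i) = s ^ a * t ^ b * aeval (Sum.elim x y) (E i)

variable (e : Fin (n + 1) × Fin (m + 1) ≃ Fin (M + 1))

/-- the equations of the image of the Segre embedding -/
noncomputable def segEqs (E : ι → MvPolynomial (Fin (n + 1) ⊕ Fin (m + 1)) K) :
    (ι × Fin (n + 1) × Fin (m + 1)) ⊕ ((Fin (n + 1) × Fin (m + 1)) × (Fin (n + 1) × Fin (m + 1))) →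
      MvPolynomial (Fin (M + 1)) K :=
  Sum.elim
    (fun p => rename (Sum.elim (fun j => e (j, p.2.2)) (fun l => e (p.2.1, l))) (E p.1))
    (fun p => X (e p.1) * X (e p.2) - X (e (p.1.1, p.2.2)) * X (e (p.2.1, p.1.2)))

theorem seg_hom {E : ι → MvPolynomial (Fin (n + 1) ⊕ Fin (m + 1)) K} (hE : BiHom E) (p) :
    ∃ d, (segEqs e E p).IsHomogeneous d := by
  rcases p with p | p
  · obtain ⟨a, b, h, -⟩ := hE p.1
    exact ⟨a + b, h.rename_isHomogeneous⟩
  · exact ⟨1 + 1, ((isHomogeneous_X K _).mul (isHomogeneous_X K _)).sub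
      ((isHomogeneous_X K _).mul (isHomogeneous_X K _))⟩

section field

variable {Ω : Type} [Field Ω] [Algebra K Ω]

/-- the Segre map -/
def sg (x : Fin (n + 1) → Ω) (y : Fin (m + 1) → Ω) : Fin (M + 1) → Ω := fun z =>
  x (e.symm z).1 * y (e.symm z).2

omit [Algebra K Ω] in
theorem sg_e (x : Fin (n + 1) → Ω) (y : Fin (m + 1) → Ω) (p : Fin (n + 1) × Fin (m + 1)) :
    sg e x y (e p) = x p.1 * y p.2 := by
  unfold sg
  rw [e.symm_apply_apply]

omit [Algebra K Ω] in
theorem sg_ne {x : Fin (n + 1) → Ω} {y : Fin (m + 1) → Ω} (hx : x ≠ 0) (hy : y ≠ 0) :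
    sg e x y ≠ 0 := by
  obtain ⟨j, hj⟩ := Function.ne_iff.1 hx
  obtain ⟨l, hl⟩ := Function.ne_iff.1 hy
  intro h
  have := congrFun h (e (j, l))
  rw [sg_e] at this
  exact mul_ne_zero hj hl this

omit [Algebra K Ω] in
/-- proportional images -/
theorem sg_prop {x x' : Fin (n + 1) → Ω} {y y' : Fin (m + 1) → Ω} (hx : x ≠ 0) (hy : y ≠ 0)
    {c : Ω} (h : sg e x y = c • sg e x' y') : (∃ s : Ω, x = s • x') ∧ ∃ t : Ω, y = t • y' := by
  have h1 : ∀ j l, x j * y l = c * (x' j * y' l) := by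
    intro j l
    have := congrFun h (e (j, l))
    rwa [sg_e, Pi.smul_apply, sg_e, smul_eq_mul] at this
  obtain ⟨j, hj⟩ := Function.ne_iff.1 hx
  obtain ⟨l, hl⟩ := Function.ne_iff.1 hy
  constructor
  · refine ⟨c * y' l / y l, funext fun i => ?_⟩
    have hl' : y l ≠ 0 := hl
    rw [Pi.smul_apply, smul_eq_mul, div_mul_eq_mul_div, eq_div_iff hl', h1 i l]
    ring
  · refine ⟨c * x' j / x j, funext fun i => ?_⟩
    have hj' : x j ≠ 0 := hj
    rw [Pi.smul_apply, smul_eq_mul, div_mul_eq_mul_div, eq_div_iff hj', mul_comm (y i), h1 j i]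
    ring

theorem seg_eval_l (E : ι → MvPolynomial (Fin (n + 1) ⊕ Fin (m + 1)) K) (z : Fin (M + 1) → Ω)
    (i : ι) (j : Fin (n + 1)) (l : Fin (m + 1)) :
    aeval z (segEqs e E (Sum.inl (i, j, l))) =
      aeval (Sum.elim (fun j' => z (e (j', l))) (fun l' => z (e (j, l')))) (E i) := by
  unfold segEqs
  rw [Sum.elim_inl, aeval_rename]
  congr 2
  funext t
  rcases t with t | t <;> rfl

theorem seg_eval_r (E : ι → MvPolynomial (Fin (n + 1) ⊕ Fin (m + 1)) K) (z : Fin (M + 1) → Ω)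
    (p q : Fin (n + 1) × Fin (m + 1)) :
    aeval z (segEqs e E (Sum.inr (p, q))) =
      z (e p) * z (e q) - z (e (p.1, q.2)) * z (e (q.1, p.2)) := by
  unfold segEqs
  rw [Sum.elim_inr, map_sub, map_mul, map_mul, aeval_X, aeval_X, aeval_X, aeval_X]

/-- images of points lie on the Segre image -/
theorem sg_mem {E : ι → MvPolynomial (Fin (n + 1) ⊕ Fin (m + 1)) K} (hE : BiHom E)
    {x : Fin (n + 1) → Ω} {y : Fin (m + 1) → Ω} (h : ∀ i, aeval (Sum.elim x y) (E i) = 0) (p) :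
    aeval (sg e x y) (segEqs e E p) = 0 := by
  rcases p with ⟨i, j, l⟩ | ⟨p, q⟩
  · rw [seg_eval_l]
    obtain ⟨a, b, -, hab⟩ := hE i
    have h1 : (fun j' => sg e x y (e (j', l))) = y l • x := by
      funext j'
      rw [sg_e, Pi.smul_apply, smul_eq_mul, mul_comm]
    have h2 : (fun l' => sg e x y (e (j, l'))) = x j • y := by
      funext l'
      rw [sg_e, Pi.smul_apply, smul_eq_mul]
    rw [h1, h2, hab, h, mul_zero]
  · rw [seg_eval_r]
    simp only [sg_e]
    ring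

/-- and conversely -/
theorem mem_of_sg {E : ι → MvPolynomial (Fin (n + 1) ⊕ Fin (m + 1)) K} (hE : BiHom E)
    {x : Fin (n + 1) → Ω} {y : Fin (m + 1) → Ω} (hx : x ≠ 0) (hy : y ≠ 0)
    (h : ∀ p, aeval (sg e x y) (segEqs e E p) = 0) (i : ι) :
    aeval (Sum.elim x y) (E i) = 0 := by
  obtain ⟨j, hj⟩ := Function.ne_iff.1 hx
  obtain ⟨l, hl⟩ := Function.ne_iff.1 hy
  have h0 := h (Sum.inl (i, j, l))
  rw [seg_eval_l] at h0
  obtain ⟨a, b, -, hab⟩ := hE i
  have h1 : (fun j' => sg e x y (e (j', l))) = y l • x := by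
    funext j'
    rw [sg_e, Pi.smul_apply, smul_eq_mul, mul_comm]
  have h2 : (fun l' => sg e x y (e (j, l'))) = x j • y := by
    funext l'
    rw [sg_e, Pi.smul_apply, smul_eq_mul]
  rw [h1, h2, hab] at h0
  exact (mul_eq_zero.1 h0).resolve_left (mul_ne_zero (pow_ne_zero _ hl) (pow_ne_zero _ hj))

/-- points of the Segre image are images -/
theorem exists_sg {E : ι → MvPolynomial (Fin (n + 1) ⊕ Fin (m + 1)) K} {z : Fin (M + 1) → Ω}
    (hz : z ≠ 0) (h : ∀ p q, aeval z (segEqs e E (Sum.inr (p, q))) = 0) :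
    ∃ (x : Fin (n + 1) → Ω) (y : Fin (m + 1) → Ω), x ≠ 0 ∧ y ≠ 0 ∧ z = sg e x y := by
  obtain ⟨t, ht⟩ := Function.ne_iff.1 hz
  obtain ⟨⟨j, l⟩, rfl⟩ := e.surjective t
  have ht' : z (e (j, l)) ≠ 0 := ht
  refine ⟨fun j' => z (e (j', l)) / z (e (j, l)), fun l' => z (e (j, l')), ?_, ?_, ?_⟩
  · intro h0
    have := congrFun h0 j
    simp only [div_self ht', Pi.zero_apply, one_ne_zero] at this
  · intro h0
    exact ht' (congrFun h0 l)
  · funext t
    obtain ⟨⟨j', l'⟩, rfl⟩ := e.surjective t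
    rw [sg_e, div_mul_eq_mul_div, eq_div_iff ht']
    have h1 := h (j', l') (j, l)
    rw [seg_eval_r] at h1
    linear_combination h1

end field

section points

theorem seg_fin_down {E : ι → MvPolynomial (Fin (n + 1) ⊕ Fin (m + 1)) K} (hE : BiHom E)
    (L : Type) [Field L] [Algebra K L] (h : (points L (segEqs e E)).Finite) :
    (points₂ L E).Finite := by
  let φ : ℙ L (Fin (n + 1) → L) × ℙ L (Fin (m + 1) → L) → ℙ L (Fin (M + 1) → L) := fun Q =>
    Projectivization.mk L (sg e Q.1.rep Q.2.rep) (sg_ne e Q.1.rep_nonzero Q.2.rep_nonzero)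
  have hφ : Function.Injective φ := by
    rintro ⟨Q, R⟩ ⟨Q', R'⟩ hQ
    obtain ⟨c, hc⟩ := (Projectivization.mk_eq_mk_iff' L _ _ _ _).1 hQ
    obtain ⟨⟨s, hs⟩, ⟨t, ht⟩⟩ := sg_prop e Q.rep_nonzero R.rep_nonzero hc.symm
    refine Prod.ext ?_ ?_
    · change Q = Q'
      rw [← Q.mk_rep, ← Q'.mk_rep, Projectivization.mk_eq_mk_iff']
      exact ⟨s, hs.symm⟩
    · change R = R'
      rw [← R.mk_rep, ← R'.mk_rep, Projectivization.mk_eq_mk_iff']
      exact ⟨t, ht.symm⟩
  apply Set.Finite.of_finite_image (f := φ) (h.subset ?_) hφ.injOn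
  rintro _ ⟨Q, hQ, rfl⟩ p
  obtain ⟨b, hb⟩ := Projectivization.exists_smul_eq_mk_rep L (sg e Q.1.rep Q.2.rep)
    (sg_ne e Q.1.rep_nonzero Q.2.rep_nonzero)
  have h1 : (φ Q).rep = (b : L) • sg e Q.1.rep Q.2.rep := hb.symm
  obtain ⟨d, hd⟩ := seg_hom e hE p
  rw [h1, aeval_scaleK hd, sg_mem e hE hQ, mul_zero]

theorem seg_fin_up {E : ι → MvPolynomial (Fin (n + 1) ⊕ Fin (m + 1)) K} (hE : BiHom E)
    (L : Type) [Field L] [Algebra K L] (h : (points₂ L E).Finite) :
    (points L (segEqs e E)).Finite := by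
  let φ : ℙ L (Fin (n + 1) → L) × ℙ L (Fin (m + 1) → L) → ℙ L (Fin (M + 1) → L) := fun Q =>
    Projectivization.mk L (sg e Q.1.rep Q.2.rep) (sg_ne e Q.1.rep_nonzero Q.2.rep_nonzero)
  refine (h.image φ).subset fun z hz => ?_
  obtain ⟨x, y, hx, hy, hxy⟩ := exists_sg e (E := E) z.rep_nonzero fun p q => hz (Sum.inr (p, q))
  have hz' : ∀ p, aeval (sg e x y) (segEqs e E p) = 0 := fun p => by
    rw [← hxy]
    exact hz p
  obtain ⟨a, ha⟩ := Projectivization.exists_smul_eq_mk_rep L x hx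
  obtain ⟨b, hb⟩ := Projectivization.exists_smul_eq_mk_rep L y hy
  refine ⟨(Projectivization.mk L x hx, Projectivization.mk L y hy), fun i => ?_, ?_⟩
  · obtain ⟨a', b', -, hab⟩ := hE i
    change aeval (Sum.elim (Projectivization.mk L x hx).rep (Projectivization.mk L y hy).rep)
      (E i) = 0
    have h1 : (Projectivization.mk L x hx).rep = (a : L) • x := ha.symm
    have h2 : (Projectivization.mk L y hy).rep = (b : L) • y := hb.symm
    rw [h1, h2, hab, mem_of_sg e hE hx hy hz' i, mul_zero]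
  · rw [← z.mk_rep]
    change Projectivization.mk L (sg e (Projectivization.mk L x hx).rep
      (Projectivization.mk L y hy).rep) _ = _
    rw [Projectivization.mk_eq_mk_iff']
    refine ⟨(a : L) * b, ?_⟩
    rw [hxy]
    funext t
    rw [Pi.smul_apply, smul_eq_mul]
    unfold sg
    have h1 : (Projectivization.mk L x hx).rep = (a : L) • x := ha.symm
    have h2 : (Projectivization.mk L y hy).rep = (b : L) • y := hb.symm
    rw [h1, h2, Pi.smul_apply, Pi.smul_apply, smul_eq_mul, smul_eq_mul]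
    ring

end points

section curves

theorem entire_mul {f g : ℂ → ℂ} (hf : Differentiable ℂ f) (hg : Differentiable ℂ g)
    (h : ∀ z, f z * g z = 0) : (∀ z, f z = 0) ∨ ∀ z, g z = 0 := by
  have ha' : AnalyticOnNhd ℂ f Set.univ := fun z _ => hf.analyticAt z
  have hb' : AnalyticOnNhd ℂ g Set.univ := fun z _ => hg.analyticAt z
  rcases ha'.eq_zero_or_eq_zero_of_mul_eq_zero hb' (fun s _ => h s) isPreconnected_univ with h1 | h1
  · exact Or.inl fun z => h1 z (Set.mem_univ z)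
  · exact Or.inr fun z => h1 z (Set.mem_univ z)

/-- lifting of entire curves in the Segre image -/
theorem lift_sg {Z : ℂ → Fin (M + 1) → ℂ} (hZ : Differentiable ℂ Z) (hZ0 : ∀ z, Z z ≠ 0)
    (h : ∀ z p q, Z z (e p) * Z z (e q) = Z z (e (p.1, q.2)) * Z z (e (q.1, p.2))) :
    ∃ (f : ℂ → Fin (n + 1) → ℂ) (g : ℂ → Fin (m + 1) → ℂ), Differentiable ℂ f ∧
      Differentiable ℂ g ∧ (∀ z, f z ≠ 0) ∧ (∀ z, g z ≠ 0) ∧ ∀ z, Z z = sg e (f z) (g z) := by
  classical
  have hZd : ∀ t, Differentiable ℂ fun z => Z z t := fun t => (differentiable_pi.1 hZ) t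
  obtain ⟨t, ht⟩ := Function.ne_iff.1 (hZ0 0)
  obtain ⟨⟨j0, l0⟩, rfl⟩ := e.surjective t
  obtain ⟨b, v, hb, hv, huv, hv0⟩ := Pool.Agent.N133.WZ.reduce
    (fun (j : Fin (n + 1)) z => Z z (e (j, l0))) (fun j => hZd _) (j0 := j0) (z0 := 0) ht
  have hb0 : ¬ ∀ z, b z = 0 := by
    intro h0
    apply ht
    have h1 : Z 0 (e (j0, l0)) = b 0 * v j0 0 := huv j0 0
    rw [h1, h0, zero_mul]
    rfl
  have hrank : ∀ j j' l z, Z z (e (j, l)) * v j' z = Z z (e (j', l)) * v j z := by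
    intro j j' l
    have h1 : ∀ z, b z * (Z z (e (j, l)) * v j' z - Z z (e (j', l)) * v j z) = 0 := by
      intro z
      have h2 : Z z (e (j, l)) * Z z (e (j', l0)) = Z z (e (j, l0)) * Z z (e (j', l)) :=
        h z (j, l) (j', l0)
      have h4 : Z z (e (j, l0)) = b z * v j z := huv j z
      have h5 : Z z (e (j', l0)) = b z * v j' z := huv j' z
      rw [h5, h4] at h2
      linear_combination h2
    rcases entire_mul hb (((hZd _).mul (hv _)).sub ((hZd _).mul (hv _))) h1 with h2 | h2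
    · exact absurd h2 hb0
    · exact fun z => sub_eq_zero.1 (h2 z)
  choose J hJ using hv0
  let g : ℂ → Fin (m + 1) → ℂ := fun z l => Z z (e (J z, l)) / v (J z) z
  have hg : ∀ j l z, Z z (e (j, l)) = v j z * g z l := by
    intro j l z
    simp only [g]
    rw [mul_div_assoc', eq_div_iff (hJ z), hrank j (J z) l z]
    ring
  refine ⟨fun z j => v j z, g, differentiable_pi.2 hv, ?_, ?_, ?_, ?_⟩
  · rw [differentiable_pi]
    intro l z1
    have h1 : (fun z => g z l) =ᶠ[nhds z1] fun z => Z z (e (J z1, l)) / v (J z1) z := by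
      have h2 : ∀ᶠ z in nhds z1, v (J z1) z ≠ 0 :=
        (hv (J z1)).continuous.continuousAt.eventually_ne (hJ z1)
      filter_upwards [h2] with z hz
      rw [hg (J z1) l z, mul_div_assoc, mul_comm, div_mul_cancel₀ _ hz]
    exact ((hZd _ z1).div (hv _ z1) (hJ z1)).congr_of_eventuallyEq h1
  · intro z h0
    exact hJ z (congrFun h0 (J z))
  · intro z h0
    apply hZ0 z
    funext t
    obtain ⟨⟨j, l⟩, rfl⟩ := e.surjective t
    rw [hg j l z, h0]
    simp
  · intro z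
    funext t
    obtain ⟨⟨j, l⟩, rfl⟩ := e.surjective t
    rw [sg_e]
    exact hg j l z

theorem seg_hyp {E : ι → MvPolynomial (Fin (n + 1) ⊕ Fin (m + 1)) K} (hE : BiHom E)
    (σ : K →+* ℂ) : Hyperbolic σ (segEqs e E) ↔ Hyperbolic₂ σ E := by
  let _ : Algebra K ℂ := σ.toAlgebra
  have hev : ∀ {τ : Type} (x : τ → ℂ) (p : MvPolynomial τ K), eval₂ σ x p = aeval x p :=
    fun x p => rfl
  constructor
  · intro h f g hf hg hf0 hg0 hfg z w
    have hfd : ∀ t, Differentiable ℂ fun z => f z t := fun t => (differentiable_pi.1 hf) t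
    have hgd : ∀ t, Differentiable ℂ fun z => g z t := fun t => (differentiable_pi.1 hg) t
    obtain ⟨c, hc⟩ := h (fun z => sg e (f z) (g z))
      (differentiable_pi.2 fun t => (hfd _).mul (hgd _)) (fun z => sg_ne e (hf0 z) (hg0 z))
      (fun z p => by
        rw [hev]
        exact sg_mem e hE (fun i => by rw [← hev]; exact hfg z i) p) z w
    exact sg_prop e (hf0 z) (hg0 z) hc
  · intro h Z hZ hZ0 hZE z w
    obtain ⟨f, g, hf, hg, hf0, hg0, hfg⟩ := lift_sg e hZ hZ0 fun z p q => by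
      have h1 := hZE z (Sum.inr (p, q))
      rw [hev, seg_eval_r] at h1
      exact sub_eq_zero.1 h1
    obtain ⟨⟨s, hs⟩, t, ht⟩ := h f g hf hg hf0 hg0 (fun z i => by
      rw [hev]
      refine mem_of_sg e hE (hf0 z) (hg0 z) (fun p => ?_) i
      rw [← hfg z, ← hev]
      exact hZE z p) z w
    refine ⟨s * t, ?_⟩
    rw [hfg z, hfg w]
    funext k
    rw [Pi.smul_apply, smul_eq_mul]
    unfold sg
    rw [hs, ht, Pi.smul_apply, Pi.smul_apply, smul_eq_mul, smul_eq_mul]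
    ring

end curves

end Pool.Agent.U207.SM
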