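import Pool.Agent.U207.SM.Fam

/-!
Project SM (helper207), part B: generic smoothness, by derivations.
-/

set_option autoImplicit false

namespace Pool.Agent.U207.SM

open MvPolynomial

section

variable {K : Type} [Field K] [CharZero K] {n N s d c : ℕ} {Ω : Type} [Field Ω] [Algebra K Ω]
  {g : Fin s → MvPolynomial (Fin (n + 1)) K} {k0 : Fin (N + 1)} {a : Par n N s d → Ω}
  {h : Fin (n + 1) → Ω} {w : Fin (N + 1) → Ω}

omit [CharZero K] in
theorem ad_single {D : Derivation K Ω Ω} {i0 : Fin s} {k1 : Fin (N + 1)} (hk1 : k1 ≠ k0)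
    {α0 : Wd n d} (hD : ∀ p, D (a p) = if p = (i0, k1, α0) then 1 else 0) (i : Fin s)
    (k : Fin (N + 1)) :
    ad D k0 a h i k = if i = i0 ∧ k = k1 then aeval h (mo K α0) else 0 := by
  classical
  unfold ad
  by_cases hik : i = i0 ∧ k = k1
  · obtain ⟨rfl, rfl⟩ := hik
    rw [if_neg hk1, if_pos ⟨rfl, rfl⟩]
    rw [Finset.sum_eq_single α0]
    · rw [hD, if_pos rfl, one_mul]
    · intro α _ hα
      rw [hD, if_neg (fun h => hα (by simpa using h)), zero_mul]
    · intro h
      exact absurd (Finset.mem_univ _) h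
  · rw [if_neg hik]
    split_ifs with hk
    · rfl
    · refine Finset.sum_eq_zero fun α _ => ?_
      rw [hD, if_neg (fun h => hik ⟨by simpa using congrArg (fun p => p.1) h,
        by simpa using congrArg (fun p => p.2.1) h⟩), zero_mul]

theorem exists_dir (ha : AlgebraicIndependent K a) (p0 : Par n N s d) :
    ∃ D : Derivation K Ω Ω, ∀ p, D (a p) = if p = p0 then 1 else 0 := by
  classical
  obtain ⟨D, hD⟩ := Pool.Agent.H135R2.VS.exists_der ha (fun p => if p = p0 then 1 else 0)
  exact ⟨D, hD⟩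

/-- general points of the fibres outside of `w_{k0}` -/
theorem gen_smooth_b (ha : AlgebraicIndependent K a) {P : Fin c → MvPolynomial (Fin (N + 1)) K}
    {x μ : Fin c → Ω} {ν : Fin s → Ω} (hh : h ≠ 0) {k1 : Fin (N + 1)} (hk1 : k1 ≠ k0)
    (hw1 : w k1 ≠ 0) (h4 : ∀ i, fv g k0 a h w i = 0) (h5 : ∀ l, x l ^ 2 = aeval w (P l))
    (h3 : ∀ l, μ l * x l = 0)
    (h1 : ∀ j, ∑ i, ν i * ∑ k, w k * avd g k0 a h i k j = 0)
    (h2 : ∀ k, ∑ i, ν i * av g k0 a h i k = ∑ l, μ l * aeval w (pderiv k (P l))) : ν = 0 := by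
  classical
  obtain ⟨j0, hj0⟩ := Function.ne_iff.1 hh
  funext i0
  obtain ⟨D, hD⟩ := exists_dir ha (i0, k1, fun _ => j0)
  have e0 : ∑ i, ν i * D (fv g k0 a h w i) = 0 :=
    Finset.sum_eq_zero fun i _ => by rw [h4, map_zero, mul_zero]
  simp only [der_fv, mul_add, Finset.sum_add_distrib] at e0
  have e1 : ∑ i, ν i * ∑ k, D (w k) * av g k0 a h i k = 0 := by
    have : ∑ i, ν i * ∑ k, D (w k) * av g k0 a h i k =
        ∑ k, D (w k) * ∑ i, ν i * av g k0 a h i k := by
      simp only [Finset.mul_sum]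
      rw [Finset.sum_comm]
      refine Finset.sum_congr rfl fun k _ => Finset.sum_congr rfl fun i _ => ?_
      ring
    rw [this]
    simp only [h2]
    have : ∑ k, D (w k) * ∑ l, μ l * aeval w (pderiv k (P l)) =
        ∑ l, μ l * ∑ k, aeval w (pderiv k (P l)) * D (w k) := by
      simp only [Finset.mul_sum]
      rw [Finset.sum_comm]
      refine Finset.sum_congr rfl fun k _ => Finset.sum_congr rfl fun i _ => ?_
      ring
    rw [this]
    refine Finset.sum_eq_zero fun l _ => ?_
    rw [← chain, ← h5, Derivation.leibniz_pow]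
    simp only [smul_eq_mul, nsmul_eq_mul]
    linear_combination (2 * D (x l)) * h3 l
  have e2 : ∑ i, ν i * ∑ j, (∑ k, w k * avd g k0 a h i k j) * D (h j) = 0 := by
    have : ∑ i, ν i * ∑ j, (∑ k, w k * avd g k0 a h i k j) * D (h j) =
        ∑ j, D (h j) * ∑ i, ν i * ∑ k, w k * avd g k0 a h i k j := by
      simp only [Finset.mul_sum, Finset.sum_mul]
      rw [Finset.sum_comm]
      refine Finset.sum_congr rfl fun k _ => Finset.sum_congr rfl fun i _ =>
        Finset.sum_congr rfl fun j _ => ?_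
      ring
    rw [this]
    exact Finset.sum_eq_zero fun j _ => by rw [h1, mul_zero]
  have e3 : ∑ i, ν i * ∑ k, w k * ad D k0 a h i k =
      ν i0 * (w k1 * aeval h (mo K fun _ : Fin d => j0)) := by
    rw [Finset.sum_eq_single i0]
    · congr 1
      rw [Finset.sum_eq_single k1]
      · rw [ad_single hk1 hD, if_pos ⟨rfl, rfl⟩]
      · intro k _ hk
        rw [ad_single hk1 hD, if_neg (fun h => hk h.2), mul_zero]
      · intro h
        exact absurd (Finset.mem_univ _) h
    · intro i _ hi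
      rw [Finset.sum_eq_zero, mul_zero]
      intro k _
      rw [ad_single hk1 hD, if_neg (fun h => hi h.1), mul_zero]
    · intro h
      exact absurd (Finset.mem_univ _) h
  rw [e1, e2, e3, zero_add, zero_add, mo_aeval] at e0
  have hm : ∏ _t : Fin d, h j0 ≠ 0 := Finset.prod_ne_zero_iff.2 fun _ _ => hj0
  exact (mul_eq_zero.1 e0).resolve_right (mul_ne_zero hw1 hm)

/-- points of the fibre of `w_{k0}` -/
theorem gen_smooth_a (ha : AlgebraicIndependent K a) (hN : s + (n + 1) < N) {ν : Fin s → Ω}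
    (hh : h ≠ 0) (h2 : ∀ k, k ≠ k0 → ∑ i, ν i * av g k0 a h i k = 0) : ν = 0 := by
  classical
  by_contra hν
  obtain ⟨j0, hj0⟩ := Function.ne_iff.1 hh
  obtain ⟨i0, hi0⟩ := Function.ne_iff.1 hν
  let Ψ : ({k : Fin (N + 1) // k ≠ k0} → Ω) →ₗ[Ω] (Fin s ⊕ Fin (n + 1) → Ω) :=
    { toFun := fun c => Sum.elim (fun i => ∑ k, c k * av g k0 a h i k)
        (fun j => ∑ k, c k * ∑ i, ν i * avd g k0 a h i k j)
      map_add' := by
        intro c c'
        funext z
        rcases z with z | z
        · simp [add_mul, Finset.sum_add_distrib]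
        · simp [add_mul, Finset.sum_add_distrib]
      map_smul' := by
        intro c c'
        funext z
        rcases z with z | z
        · simp [Finset.mul_sum, mul_assoc]
        · simp [Finset.mul_sum, mul_assoc] }
  have hlt : Module.finrank Ω (Fin s ⊕ Fin (n + 1) → Ω) <
      Module.finrank Ω ({k : Fin (N + 1) // k ≠ k0} → Ω) := by
    rw [Module.finrank_fintype_fun_eq_card, Module.finrank_fintype_fun_eq_card]
    simp only [Fintype.card_sum, Fintype.card_fin, ne_eq, Fintype.card_subtype_compl,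
      Fintype.card_subtype_eq]
    omega
  have hker := LinearMap.ker_ne_bot_of_finrank_lt (f := Ψ) hlt
  obtain ⟨cc, hcc, hcc0⟩ := (Submodule.ne_bot_iff _).1 hker
  rw [LinearMap.mem_ker] at hcc
  obtain ⟨k1, hk1⟩ := Function.ne_iff.1 hcc0
  have hA : ∀ i, ∑ k, cc k * av g k0 a h i k = 0 := fun i => congrFun hcc (Sum.inl i)
  have hB : ∀ j, ∑ k, cc k * ∑ i, ν i * avd g k0 a h i k j = 0 := fun j =>
    congrFun hcc (Sum.inr j)
  obtain ⟨D, hD⟩ := exists_dir ha (i0, k1.1, fun _ => j0)
  have e0 : ∑ k : {k : Fin (N + 1) // k ≠ k0}, cc k * D (∑ i, ν i * av g k0 a h i k) = 0 :=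
    Finset.sum_eq_zero fun k _ => by rw [h2 k.1 k.2, map_zero, mul_zero]
  simp only [map_sum, Derivation.leibniz, smul_eq_mul, der_av, mul_add, Finset.sum_add_distrib]
    at e0
  have e1 : ∑ k : {k : Fin (N + 1) // k ≠ k0}, cc k * ∑ i, ν i * ∑ j,
      avd g k0 a h i k j * D (h j) = 0 := by
    have : ∑ k : {k : Fin (N + 1) // k ≠ k0}, cc k * ∑ i, ν i * ∑ j,
        avd g k0 a h i k j * D (h j) =
        ∑ j, D (h j) * ∑ k : {k : Fin (N + 1) // k ≠ k0}, cc k * ∑ i, ν i * avd g k0 a h i k j := by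
      simp only [Finset.mul_sum]
      symm
      rw [Finset.sum_comm]
      refine Finset.sum_congr rfl fun k _ => ?_
      rw [Finset.sum_comm]
      refine Finset.sum_congr rfl fun i _ => Finset.sum_congr rfl fun j _ => ?_
      ring
    rw [this]
    exact Finset.sum_eq_zero fun j _ => by rw [hB, mul_zero]
  have e2 : ∑ k : {k : Fin (N + 1) // k ≠ k0}, cc k * ∑ i, av g k0 a h i k * D (ν i) = 0 := by
    have : ∑ k : {k : Fin (N + 1) // k ≠ k0}, cc k * ∑ i, av g k0 a h i k * D (ν i) =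
        ∑ i, D (ν i) * ∑ k : {k : Fin (N + 1) // k ≠ k0}, cc k * av g k0 a h i k := by
      simp only [Finset.mul_sum]
      rw [Finset.sum_comm]
      refine Finset.sum_congr rfl fun k _ => Finset.sum_congr rfl fun i _ => ?_
      ring
    rw [this]
    exact Finset.sum_eq_zero fun j _ => by rw [hA, mul_zero]
  have e3 : ∑ k : {k : Fin (N + 1) // k ≠ k0}, cc k * ∑ i, ν i * ad D k0 a h i k =
      cc k1 * (ν i0 * aeval h (mo K fun _ : Fin d => j0)) := by
    rw [Finset.sum_eq_single k1]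
    · congr 1
      rw [Finset.sum_eq_single i0]
      · rw [ad_single k1.2 hD, if_pos ⟨rfl, rfl⟩]
      · intro k _ hk
        rw [ad_single k1.2 hD, if_neg (fun h => hk h.1), mul_zero]
      · intro h
        exact absurd (Finset.mem_univ _) h
    · intro k _ hk
      rw [Finset.sum_eq_zero, mul_zero]
      intro i _
      rw [ad_single k1.2 hD, if_neg (fun h => hk (Subtype.ext h.2)), mul_zero]
    · intro h
      exact absurd (Finset.mem_univ _) h
  rw [e1, e2, e3, zero_add, add_zero, mo_aeval] at e0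
  have hm : ∏ _t : Fin d, h j0 ≠ 0 := Finset.prod_ne_zero_iff.2 fun _ _ => hj0
  exact mul_ne_zero hk1 (mul_ne_zero hi0 hm) e0

end

end Pool.Agent.U207.SM
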