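import Pool.Agent.U207.SM.Jet

/-!
Project SM (helper207), part E: specialization of the coefficients.
-/

set_option autoImplicit false

namespace Pool.Agent.U207.SM

open MvPolynomial

section sys

variable {K : Type} [Field K] {n N s d c : ℕ}

/-- the unknowns `h`, `w`, `x`, `ν`, `μ` -/
abbrev Unk (n N s c : ℕ) := Fin (n + 1) ⊕ Fin (N + 1) ⊕ Fin c ⊕ Fin s ⊕ Fin c

/-- the equations of singular points -/
noncomputable def sys {R : Type} [CommRing R] [Algebra K R]
    (g : Fin s → MvPolynomial (Fin (n + 1)) K) (k0 : Fin (N + 1))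
    (P : Fin c → MvPolynomial (Fin (N + 1)) K) (a : Par n N s d → R)
    (h : Fin (n + 1) → R) (w : Fin (N + 1) → R) (x : Fin c → R) (ν : Fin s → R) (μ : Fin c → R) :
    Fin s ⊕ Fin c ⊕ Fin c ⊕ Fin (n + 1) ⊕ Fin (N + 1) → R :=
  Sum.elim (fun i => fv g k0 a h w i) <| Sum.elim (fun l => x l ^ 2 - aeval w (P l)) <|
    Sum.elim (fun l => μ l * x l) <|
    Sum.elim (fun j => ∑ i, ν i * ∑ k, w k * avd g k0 a h i k j)
      (fun k => ∑ i, ν i * av g k0 a h i k - ∑ l, μ l * aeval w (pderiv k (P l)))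

theorem sys_map {R R' : Type} [CommRing R] [Algebra K R] [CommRing R'] [Algebra K R']
    (φ : R →ₐ[K] R') (g : Fin s → MvPolynomial (Fin (n + 1)) K) (k0 : Fin (N + 1))
    (P : Fin c → MvPolynomial (Fin (N + 1)) K) (a : Par n N s d → R)
    (h : Fin (n + 1) → R) (w : Fin (N + 1) → R) (x : Fin c → R) (ν : Fin s → R) (μ : Fin c → R)
    (z : Fin s ⊕ Fin c ⊕ Fin c ⊕ Fin (n + 1) ⊕ Fin (N + 1)) :
    φ (sys g k0 P a h w x ν μ z) = sys g k0 P (fun p => φ (a p)) (fun j => φ (h j))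
      (fun k => φ (w k)) (fun l => φ (x l)) (fun i => φ (ν i)) (fun l => φ (μ l)) z := by
  rcases z with i | l | l | j | k
  · exact fv_map φ g k0 a h w i
  · change φ (x l ^ 2 - aeval w (P l)) = (φ (x l)) ^ 2 - aeval (fun k => φ (w k)) (P l)
    rw [map_sub, map_pow]
    congr 1
    exact aeval_map' φ w _
  · exact map_mul φ _ _
  · change φ (∑ i, ν i * ∑ k, w k * avd g k0 a h i k j) = ∑ i, φ (ν i) * ∑ k, φ (w k) *
      avd g k0 (fun p => φ (a p)) (fun j => φ (h j)) i k j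
    simp only [map_sum, map_mul, avd_map]
  · change φ (∑ i, ν i * av g k0 a h i k - ∑ l, μ l * aeval w (pderiv k (P l))) =
      ∑ i, φ (ν i) * av g k0 (fun p => φ (a p)) (fun j => φ (h j)) i k -
        ∑ l, φ (μ l) * aeval (fun k => φ (w k)) (pderiv k (P l))
    simp only [map_sub, map_sum, map_mul, av_map]
    congr 1
    refine Finset.sum_congr rfl fun l _ => ?_
    congr 1
    exact aeval_map' φ w _

/-- the coefficients of the jets -/
noncomputable def jet {R : Type} [CommRing R] [Algebra K R]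
    (g : Fin s → MvPolynomial (Fin (n + 1)) K) (k0 : Fin (N + 1)) (a : Par n N s d → R)
    (H : Fin (n + 1) → ℕ → R) (w : Fin (N + 1) → R) (i : Fin s) (r : ℕ) : R :=
  PowerSeries.coeff r (fv g k0 (fun p => PowerSeries.C (a p))
      (fun j => PowerSeries.mk (H j)) (fun k => PowerSeries.C (w k)) i)

theorem jet_map {R R' : Type} [CommRing R] [Algebra K R] [CommRing R'] [Algebra K R']
    (φ : R →ₐ[K] R') (g : Fin s → MvPolynomial (Fin (n + 1)) K) (k0 : Fin (N + 1))
    (a : Par n N s d → R) (H : Fin (n + 1) → ℕ → R) (w : Fin (N + 1) → R) (i : Fin s) (r : ℕ) :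
    φ (jet g k0 a H w i r) = jet g k0 (fun p => φ (a p)) (fun j q => φ (H j q))
      (fun k => φ (w k)) i r := by
  unfold jet
  have h1 := congrArg (PowerSeries.coeff r) (fv_map (PowerSeries.mapAlgHom φ) g k0
    (fun p => PowerSeries.C (a p)) (fun j => PowerSeries.mk (H j)) (fun k => PowerSeries.C (w k)) i)
  have h2 : ∀ f : PowerSeries R, PowerSeries.coeff r (PowerSeries.mapAlgHom φ f) =
      φ (PowerSeries.coeff r f) := by
    intro f
    rfl
  have e1 : ∀ x : R, PowerSeries.mapAlgHom φ (PowerSeries.C x) = PowerSeries.C (φ x) := by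
    intro x
    rw [PowerSeries.mapAlgHom_apply, PowerSeries.map_C]
    rfl
  have e2 : ∀ f : ℕ → R, PowerSeries.mapAlgHom φ (PowerSeries.mk f) =
      PowerSeries.mk fun q => φ (f q) := by
    intro f
    ext q
    rw [PowerSeries.mapAlgHom_apply, PowerSeries.coeff_map, PowerSeries.coeff_mk,
      PowerSeries.coeff_mk]
    rfl
  rw [h2] at h1
  simp only [e1, e2] at h1
  exact h1

end sys

section spz

variable {K : Type} [Field K] [CharZero K] {n N s d c ρ : ℕ}
  {g : Fin s → MvPolynomial (Fin (n + 1)) K} {k0 : Fin (N + 1)}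
  {P : Fin c → MvPolynomial (Fin (N + 1)) K}

theorem gen_sys (hP : ∀ l, (P l).IsHomogeneous 2) (hP0 : ∀ l, eval (Pi.single k0 1) (P l) ≠ 0)
    (hN : s + (n + 1) < N) {Ω : Type} [Field Ω] [Algebra K Ω] {a : Par n N s d → Ω}
    (ha : AlgebraicIndependent K a) {h : Fin (n + 1) → Ω} {w : Fin (N + 1) → Ω} {x : Fin c → Ω}
    {ν : Fin s → Ω} {μ : Fin c → Ω} (hh : h ≠ 0) (hw : w ≠ 0)
    (hz : ∀ z, sys g k0 P a h w x ν μ z = 0) : ν = 0 := by
  classical
  have h4 : ∀ i, fv g k0 a h w i = 0 := fun i => hz (Sum.inl i)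
  have h5 : ∀ l, x l ^ 2 = aeval w (P l) := fun l => sub_eq_zero.1 (hz (Sum.inr (Sum.inl l)))
  have h3 : ∀ l, μ l * x l = 0 := fun l => hz (Sum.inr (Sum.inr (Sum.inl l)))
  have h1 : ∀ j, ∑ i, ν i * ∑ k, w k * avd g k0 a h i k j = 0 := fun j =>
    hz (Sum.inr (Sum.inr (Sum.inr (Sum.inl j))))
  have h2 : ∀ k, ∑ i, ν i * av g k0 a h i k = ∑ l, μ l * aeval w (pderiv k (P l)) := fun k =>
    sub_eq_zero.1 (hz (Sum.inr (Sum.inr (Sum.inr (Sum.inr k)))))
  by_cases hk : ∃ k1, k1 ≠ k0 ∧ w k1 ≠ 0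
  · obtain ⟨k1, hk1, hw1⟩ := hk
    exact gen_smooth_b ha hh hk1 hw1 h4 h5 h3 h1 h2
  · push Not at hk
    have hw0 : w k0 ≠ 0 := by
      intro h0
      apply hw
      funext k
      by_cases hkk : k = k0
      · rw [hkk, h0]
        rfl
      · exact hk k hkk
    have hws : w = w k0 • fun k => algebraMap K Ω ((Pi.single k0 1 : Fin (N + 1) → K) k) := by
      funext k
      by_cases hkk : k = k0
      · subst hkk
        simp
      · rw [hk k hkk]
        simp [Pi.single_apply, hkk]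
    have hx : ∀ l, x l ≠ 0 := by
      intro l h0
      have e1 := h5 l
      rw [h0, hws, Pool.Agent.U207.QK.aeval_scaleK (hP l)] at e1
      have e2 : aeval (fun k => algebraMap K Ω ((Pi.single k0 1 : Fin (N + 1) → K) k)) (P l) =
          algebraMap K Ω (eval (Pi.single k0 1) (P l)) := by
        have := aeval_algebraMap_apply Ω (Pi.single k0 1 : Fin (N + 1) → K) (P l)
        rw [← MvPolynomial.coe_aeval_eq_eval]
        exact this
      rw [e2] at e1
      have e3 : algebraMap K Ω (eval (Pi.single k0 1) (P l)) ≠ 0 :=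
        (map_ne_zero_iff _ (algebraMap K Ω).injective).2 (hP0 l)
      exact mul_ne_zero (pow_ne_zero 2 hw0) e3 (by rw [← e1]; ring)
    have hμ : ∀ l, μ l = 0 := fun l => (mul_eq_zero.1 (h3 l)).resolve_right (hx l)
    refine gen_smooth_a ha hN hh (k0 := k0) (g := g) fun k _ => ?_
    rw [h2]
    exact Finset.sum_eq_zero fun l _ => by rw [hμ, zero_mul]

/-- **Special coefficients.** -/
theorem exists_coeffs (hP : ∀ l, (P l).IsHomogeneous 2)
    (hP0 : ∀ l, eval (Pi.single k0 1) (P l) ≠ 0) (hN : s + (n + 1) < N) (hρ : ρ ≤ d + 1)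
    (hs : (n + 1) * ρ + (N + 1) < s * ρ) :
    ∃ a : Par n N s d → K, ∀ (Ω : Type) [Field Ω] [Algebra K Ω],
      (∀ (h : Fin (n + 1) → Ω) (w : Fin (N + 1) → Ω) (x : Fin c → Ω) (ν : Fin s → Ω)
        (μ : Fin c → Ω), h ≠ 0 → w ≠ 0 →
        (∀ z, sys g k0 P (fun p => algebraMap K Ω (a p)) h w x ν μ z = 0) → ν = 0) ∧
      ∀ (H : Fin (n + 1) → ℕ → Ω) (w : Fin (N + 1) → Ω), (∀ i, ∀ r < ρ,
        jet g k0 (fun p => algebraMap K Ω (a p)) H w i r = 0) → (∃ k ≠ k0, w k ≠ 0) →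
          ∀ p q, H p 0 * H q 1 = H q 0 * H p 1 := by
  classical
  have hinf : Infinite K := inferInstance
  -- smoothness
  have key1 : ∀ (i0 : Fin s) (j0 : Fin (n + 1)) (m0 : Fin (N + 1)),
      ∃ Δ : MvPolynomial (Par n N s d) K, Δ ≠ 0 ∧
        ∀ (Ω : Type) [Field Ω] [Algebra K Ω] (a : Par n N s d → Ω) (h : Fin (n + 1) → Ω)
          (w : Fin (N + 1) → Ω) (x : Fin c → Ω) (ν : Fin s → Ω) (μ : Fin c → Ω),
          aeval a Δ ≠ 0 → (∀ z, sys g k0 P a h w x ν μ z = 0) → ν i0 * h j0 * w m0 = 0 := by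
    intro i0 j0 m0
    let τ := Unk n N s c
    let Q : Fin s ⊕ Fin c ⊕ Fin c ⊕ Fin (n + 1) ⊕ Fin (N + 1) →
        MvPolynomial (Par n N s d ⊕ τ) K := fun z =>
      sys g k0 P (fun p => X (Sum.inl p)) (fun j => X (Sum.inr (Sum.inl j)))
        (fun k => X (Sum.inr (Sum.inr (Sum.inl k))))
        (fun l => X (Sum.inr (Sum.inr (Sum.inr (Sum.inl l)))))
        (fun i => X (Sum.inr (Sum.inr (Sum.inr (Sum.inr (Sum.inl i))))))
        (fun l => X (Sum.inr (Sum.inr (Sum.inr (Sum.inr (Sum.inr l)))))) z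
    have hQ : ∀ (Ω : Type) [Field Ω] [Algebra K Ω] (a : Par n N s d → Ω) (v : τ → Ω) (z),
        aeval (Sum.elim a v) (Q z) = sys g k0 P a (fun j => v (Sum.inl j))
          (fun k => v (Sum.inr (Sum.inl k))) (fun l => v (Sum.inr (Sum.inr (Sum.inl l))))
          (fun i => v (Sum.inr (Sum.inr (Sum.inr (Sum.inl i)))))
          (fun l => v (Sum.inr (Sum.inr (Sum.inr (Sum.inr l))))) z := by
      intro Ω _ _ a v z
      change aeval (Sum.elim a v) (sys g k0 P _ _ _ _ _ _ z) = _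
      rw [sys_map]
      simp only [aeval_X, Sum.elim_inl, Sum.elim_inr]
    obtain ⟨Δ, hΔ, h⟩ := Pool.Agent.N254.SQ.t_spec K (Par n N s d) τ _ Q
      (X (Sum.inr (Sum.inr (Sum.inr (Sum.inr (Sum.inl i0))))) * X (Sum.inr (Sum.inl j0)) *
        X (Sum.inr (Sum.inr (Sum.inl m0)))) (by
        intro Ω _ _ y v hy hv
        simp only [hQ] at hv
        simp only [map_mul, aeval_X, Sum.elim_inr]
        by_cases h0 : (fun j => v (Sum.inl j)) = 0
        · have := congrFun h0 j0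
          simp only [Pi.zero_apply] at this
          rw [this]
          ring
        by_cases h1 : (fun k => v (Sum.inr (Sum.inl k))) = 0
        · have := congrFun h1 m0
          simp only [Pi.zero_apply] at this
          rw [this]
          ring
        have h2 := congrFun (gen_sys hP hP0 hN hy h0 h1 hv) i0
        simp only [Pi.zero_apply] at h2
        rw [h2]
        ring)
    refine ⟨Δ, hΔ, ?_⟩
    intro Ω _ _ a h' w x ν μ hΔ0 hz
    have h1 := h Ω a (Sum.elim h' (Sum.elim w (Sum.elim x (Sum.elim ν μ)))) hΔ0 (fun z => by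
      rw [hQ]
      exact hz z)
    simpa only [map_mul, aeval_X, Sum.elim_inr, Sum.elim_inl] using h1
  -- jets
  have key2 : ∀ (m0 : Fin (N + 1)) (p0 q0 : Fin (n + 1)), m0 ≠ k0 →
      ∃ Δ : MvPolynomial (Par n N s d) K, Δ ≠ 0 ∧
        ∀ (Ω : Type) [Field Ω] [Algebra K Ω] (a : Par n N s d → Ω) (H : Fin (n + 1) → ℕ → Ω)
          (w : Fin (N + 1) → Ω), aeval a Δ ≠ 0 → (∀ i, ∀ r < ρ, jet g k0 a H w i r = 0) →
            w m0 * (H p0 0 * H q0 1 - H q0 0 * H p0 1) = 0 := by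
    intro m0 p0 q0 hm0
    let τ := (Fin (n + 1) × ℕ) ⊕ Fin (N + 1)
    let Q : Fin s × Fin ρ → MvPolynomial (Par n N s d ⊕ τ) K := fun z =>
      jet g k0 (fun p => X (Sum.inl p)) (fun j q => X (Sum.inr (Sum.inl (j, q))))
        (fun k => X (Sum.inr (Sum.inr k))) z.1 z.2
    have hQ : ∀ (Ω : Type) [Field Ω] [Algebra K Ω] (a : Par n N s d → Ω) (v : τ → Ω) (z),
        aeval (Sum.elim a v) (Q z) = jet g k0 a (fun j q => v (Sum.inl (j, q)))
          (fun k => v (Sum.inr k)) z.1 z.2 := by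
      intro Ω _ _ a v z
      change aeval (Sum.elim a v) (jet g k0 _ _ _ z.1 z.2) = _
      rw [jet_map]
      simp only [aeval_X, Sum.elim_inl, Sum.elim_inr]
    obtain ⟨Δ, hΔ, h⟩ := Pool.Agent.N254.SQ.t_spec K (Par n N s d) τ _ Q
      (X (Sum.inr (Sum.inr m0)) * (X (Sum.inr (Sum.inl (p0, 0))) * X (Sum.inr (Sum.inl (q0, 1))) -
        X (Sum.inr (Sum.inl (q0, 0))) * X (Sum.inr (Sum.inl (p0, 1))))) (by
        intro Ω _ _ y v hy hv
        simp only [hQ] at hv
        simp only [map_mul, map_sub, aeval_X, Sum.elim_inr]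
        by_cases h0 : v (Sum.inr m0) = 0
        · rw [h0, zero_mul]
        have h1 := gen_jets hy hρ hs (H := fun j q => v (Sum.inl (j, q)))
          (w := fun k => v (Sum.inr k)) (g := g) (k0 := k0)
          (fun i r hr => hv (i, ⟨r, hr⟩)) hm0 h0 p0 q0
        rw [h1, sub_self, mul_zero])
    refine ⟨Δ, hΔ, ?_⟩
    intro Ω _ _ a H w hΔ0 hz
    have h1 := h Ω a (Sum.elim (fun z => H z.1 z.2) w) hΔ0 (fun z => by
      rw [hQ]
      exact hz z.1 z.2 z.2.2)
    simpa only [map_mul, map_sub, aeval_X, Sum.elim_inr, Sum.elim_inl] using h1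
  choose Δ hΔ hΔ2 using key1
  choose Δ' hΔ' hΔ2' using key2
  set T : MvPolynomial (Par n N s d) K := (∏ i0, ∏ j0, ∏ m0, Δ i0 j0 m0) *
    ∏ m0, ∏ p0, ∏ q0, (if hm : m0 ≠ k0 then Δ' m0 p0 q0 hm else 1) with hT
  have hT0 : T ≠ 0 := by
    rw [hT]
    refine mul_ne_zero ?_ ?_
    · refine Finset.prod_ne_zero_iff.2 fun i0 _ => Finset.prod_ne_zero_iff.2 fun j0 _ =>
        Finset.prod_ne_zero_iff.2 fun m0 _ => hΔ i0 j0 m0
    · refine Finset.prod_ne_zero_iff.2 fun m0 _ => Finset.prod_ne_zero_iff.2 fun p0 _ =>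
        Finset.prod_ne_zero_iff.2 fun q0 _ => ?_
      split_ifs with hm
      · exact hΔ' m0 p0 q0 hm
      · exact one_ne_zero
  obtain ⟨a, ha⟩ : ∃ a : Par n N s d → K, eval a T ≠ 0 := by
    by_contra hcon
    push Not at hcon
    exact hT0 (MvPolynomial.funext fun a => by rw [hcon, map_zero])
  have hTΩ : ∀ (Ω : Type) [Field Ω] [Algebra K Ω],
      aeval (fun p => algebraMap K Ω (a p)) T ≠ 0 := by
    intro Ω _ _
    have e2 : aeval (fun p => algebraMap K Ω (a p)) T = algebraMap K Ω (eval a T) := by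
      have := aeval_algebraMap_apply Ω a T
      rw [← MvPolynomial.coe_aeval_eq_eval]
      exact this
    rw [e2]
    exact (map_ne_zero_iff _ (algebraMap K Ω).injective).2 ha
  refine ⟨a, fun Ω _ _ => ?_⟩
  have hT2 := hTΩ Ω
  rw [hT, map_mul, map_prod, map_prod] at hT2
  constructor
  · intro h w x ν μ hh hw hz
    obtain ⟨j0, hj0⟩ := Function.ne_iff.1 hh
    obtain ⟨m0, hm0⟩ := Function.ne_iff.1 hw
    funext i0
    have h3 : aeval (fun p => algebraMap K Ω (a p)) (Δ i0 j0 m0) ≠ 0 := by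
      have h4 := Finset.prod_ne_zero_iff.1 (left_ne_zero_of_mul hT2) i0 (Finset.mem_univ _)
      rw [map_prod] at h4
      have h5 := Finset.prod_ne_zero_iff.1 h4 j0 (Finset.mem_univ _)
      rw [map_prod] at h5
      exact Finset.prod_ne_zero_iff.1 h5 m0 (Finset.mem_univ _)
    have h6 := hΔ2 i0 j0 m0 Ω _ h w x ν μ h3 hz
    exact (mul_eq_zero.1 ((mul_eq_zero.1 h6).resolve_right hm0)).resolve_right hj0
  · intro H w hz hk p q
    obtain ⟨m0, hm0, hw⟩ := hk
    have h3 : aeval (fun p => algebraMap K Ω (a p)) (Δ' m0 p q hm0) ≠ 0 := by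
      have h4 := Finset.prod_ne_zero_iff.1 (right_ne_zero_of_mul hT2) m0 (Finset.mem_univ _)
      rw [map_prod] at h4
      have h5 := Finset.prod_ne_zero_iff.1 h4 p (Finset.mem_univ _)
      rw [map_prod] at h5
      have h6 := Finset.prod_ne_zero_iff.1 h5 q (Finset.mem_univ _)
      rwa [dif_pos hm0] at h6
    have h6 := hΔ2' m0 p q hm0 Ω _ H w h3 hz
    exact sub_eq_zero.1 ((mul_eq_zero.1 h6).resolve_left hw)

end spz

end Pool.Agent.U207.SM
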