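import Pool.Agent.U207.SM.Seg

/-!
Project SM (helper207), part K: the equivalences.
-/

set_option autoImplicit false

namespace Pool.Agent.U207.SM

open MvPolynomial
open scoped LinearAlgebra.Projectivization
open Pool.Agent.U207.QC (hI)
open Pool.Agent.U207.QK (coverForm SmoothCover aeval_scaleK cover_hom)

variable {K : Type} [Field K]

theorem model_bihom {n N c s : ℕ} {A : Fin s → Fin (N + 1) → MvPolynomial (Fin (n + 1)) K}
    {P : Fin c → MvPolynomial (Fin (N + 1)) K} (h : Model A P) : BiHom (modelEqs A P) := by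
  obtain ⟨d, hd⟩ := h.deg
  rintro (i | l)
  · refine ⟨d, 1, ?_, ?_⟩
    · unfold modelEqs
      rw [Sum.elim_inl]
      refine IsHomogeneous.sum _ _ _ fun k _ => ?_
      rw [add_comm d 1]
      exact (isHomogeneous_X K _).mul (hd i k).rename_isHomogeneous
    · intro Ω _ _ b t x y
      rw [eval_inl, eval_inl, Finset.mul_sum]
      refine Finset.sum_congr rfl fun k _ => ?_
      rw [aeval_scaleK (hd i k), Pi.smul_apply, smul_eq_mul]
      ring
  · refine ⟨0, 2, ?_, ?_⟩
    · unfold modelEqs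
      rw [Sum.elim_inr, zero_add]
      exact (cover_hom h.deg_two l).rename_isHomogeneous
    · intro Ω _ _ b t x y
      rw [eval_inr, eval_inr, aeval_scaleK (cover_hom h.deg_two l)]
      ring

/-- an equivalence of the index types -/
theorem exists_idx (n m : ℕ) : ∃ M : ℕ, Nonempty (Fin (n + 1) × Fin (m + 1) ≃ Fin (M + 1)) := by
  refine ⟨(n + 1) * m + n, ⟨finProdFinEquiv.trans (finCongr ?_)⟩⟩
  ring

theorem hyp_congr {n : ℕ} {ι ι' : Type} {F : ι → MvPolynomial (Fin (n + 1)) K}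
    {F' : ι' → MvPolynomial (Fin (n + 1)) K} (σ : K →+* ℂ)
    (h : ∀ (Ω : Type) [Field Ω] [Algebra K Ω] (x : Fin (n + 1) → Ω), x ≠ 0 →
        ((∀ i, aeval x (F i) = 0) ↔ ∀ i, aeval x (F' i) = 0)) :
    Hyperbolic σ F ↔ Hyperbolic σ F' := by
  let _ : Algebra K ℂ := σ.toAlgebra
  have hev : ∀ {τ : Type} (x : τ → ℂ) (p : MvPolynomial τ K), eval₂ σ x p = aeval x p :=
    fun x p => rfl
  constructor
  · intro hF f hf hf0 hfF
    exact hF f hf hf0 fun z => (h ℂ (f z) (hf0 z)).2 (hfF z)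
  · intro hF f hf hf0 hfF
    exact hF f hf hf0 fun z => (h ℂ (f z) (hf0 z)).1 (hfF z)

theorem points_congr {n : ℕ} {ι ι' : Type} {F : ι → MvPolynomial (Fin (n + 1)) K}
    {F' : ι' → MvPolynomial (Fin (n + 1)) K}
    (h : ∀ (Ω : Type) [Field Ω] [Algebra K Ω] (x : Fin (n + 1) → Ω), x ≠ 0 →
        ((∀ i, aeval x (F i) = 0) ↔ ∀ i, aeval x (F' i) = 0)) (L : Type) [Field L] [Algebra K L] :
    points L F = points L F' := by
  ext Q
  exact h L Q.rep Q.rep_nonzero

/-- the implication, for all projective varieties -/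
def HalfAll (σ : K →+* ℂ) : Prop :=
  ∀ (n : ℕ) (ι : Type) [Finite ι] (F : ι → MvPolynomial (Fin (n + 1)) K),
    (∀ i, ∃ e, (F i).IsHomogeneous e) → Hyperbolic σ F → AllFinite F

/-- Q1 for all projective varieties over `K`, with arbitrary singularities -/
def Q1All (σ : K →+* ℂ) : Prop :=
  ∀ (n : ℕ) (ι : Type) [Finite ι] (F : ι → MvPolynomial (Fin (n + 1)) K),
    (∀ i, ∃ e, (F i).IsHomogeneous e) → (Hyperbolic σ F ↔ AllFinite F)

/-- the implication, for smooth complete intersections in `P^n × P^m` -/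
def HalfSmooth (σ : K →+* ℂ) : Prop :=
  ∀ (n m : ℕ) (ι : Type) [Finite ι] (E : ι → MvPolynomial (Fin (n + 1) ⊕ Fin (m + 1)) K),
    BiHom E → Smooth₂ E → Hyperbolic₂ σ E → AllFinite₂ E

/-- Q1 for smooth complete intersections in `P^n × P^m` -/
def Q1Smooth (σ : K →+* ℂ) : Prop :=
  ∀ (n m : ℕ) (ι : Type) [Finite ι] (E : ι → MvPolynomial (Fin (n + 1) ⊕ Fin (m + 1)) K),
    BiHom E → Smooth₂ E → (Hyperbolic₂ σ E ↔ AllFinite₂ E)

/-- the implication, for the models -/
def HalfModels (σ : K →+* ℂ) : Prop :=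
  ∀ (n N c s : ℕ) (A : Fin s → Fin (N + 1) → MvPolynomial (Fin (n + 1)) K)
    (P : Fin c → MvPolynomial (Fin (N + 1)) K), Model A P →
      Hyperbolic₂ σ (modelEqs A P) → AllFinite₂ (modelEqs A P)

/-- Q1 for the models -/
def Q1Models (σ : K →+* ℂ) : Prop :=
  ∀ (n N c s : ℕ) (A : Fin s → Fin (N + 1) → MvPolynomial (Fin (n + 1)) K)
    (P : Fin c → MvPolynomial (Fin (N + 1)) K), Model A P →
      (Hyperbolic₂ σ (modelEqs A P) ↔ AllFinite₂ (modelEqs A P))

theorem half_tfae [CharZero K] (σ : K →+* ℂ) :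
    [HalfAll σ, HalfSmooth σ, HalfModels σ].TFAE := by
  tfae_have 1 → 2 := by
    intro h n m ι _ E hE _ hyp
    obtain ⟨M, ⟨e⟩⟩ := exists_idx n m
    have h1 := h M _ (segEqs e E) (seg_hom e hE) ((seg_hyp e hE σ).2 hyp)
    intro L _ _ _
    exact seg_fin_down e hE L (h1 L)
  tfae_have 2 → 3 := by
    intro h n N c s A P hM hyp
    exact h n (N + c) (Fin s ⊕ Fin c) (modelEqs A P) (model_bihom hM) hM.smooth hyp
  tfae_have 3 → 1 := by
    intro h n ι _ F hF hyp
    obtain ⟨N, c, s, A, P, hM, hAF⟩ := exists_model_of K F hF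
    have h1 := h n N c s A P hM ((hyp_model hM σ).2 ((hyp_congr σ hAF).2 hyp))
    intro L _ _ _
    rw [← points_congr hAF L]
    exact fin_down hM L (h1 L)
  tfae_finish

theorem q1_tfae [CharZero K] (σ : K →+* ℂ) :
    [Q1All σ, Q1Smooth σ, Q1Models σ].TFAE := by
  tfae_have 1 → 2 := by
    intro h n m ι _ E hE _
    obtain ⟨M, ⟨e⟩⟩ := exists_idx n m
    have h1 := h M _ (segEqs e E) (seg_hom e hE)
    rw [seg_hyp e hE σ] at h1
    rw [h1]
    constructor
    · intro h2 L _ _ _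
      exact seg_fin_down e hE L (h2 L)
    · intro h2 L _ _ _
      exact seg_fin_up e hE L (h2 L)
  tfae_have 2 → 3 := by
    intro h n N c s A P hM
    exact h n (N + c) (Fin s ⊕ Fin c) (modelEqs A P) (model_bihom hM) hM.smooth
  tfae_have 3 → 1 := by
    intro h n ι _ F hF
    obtain ⟨N, c, s, A, P, hM, hAF⟩ := exists_model_of K F hF
    have h1 := h n N c s A P hM
    have h2 : AllFinite₂ (modelEqs (n := 0) (s := 0) (fun i => i.elim0) P) :=
      (h 0 N c 0 _ P (base_model hM)).1 (base_hyp₂ hM σ)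
    rw [hyp_model hM σ, hyp_congr σ hAF] at h1
    rw [h1]
    constructor
    · intro h3 L _ _ _
      rw [← points_congr hAF L]
      exact fin_down hM L (h3 L)
    · intro h3 L _ _ _
      have h4 := h3 L
      rw [← points_congr hAF L] at h4
      exact fin_up hM L (base_fin L (h2 L)) h4
  tfae_finish

end Pool.Agent.U207.SM
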